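import Mathlib
import Pool.Agent.H57.SS.Core
import Pool.Agent.H57.SS.Tree

/-!
# TP/Chain: chains of closed sets

A nested sequence `P 0 = V ⊇ P 1 ⊇ ...`, the parents of the vertices of `P j` are in `P (j + 1)`.
The closed sets `A j ⊇ P j` have `|P j| + e_j` vertices. Labelled closed sets `E` of size `2^i` with
`A j ⊆ E ⊆ A (j - 1)` are doubled until everything is labelled.
-/

set_option autoImplicit false

open Finset

namespace Pool.Agent.H67.TP

open Pool.Agent.H57.SS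

section

variable {V : Type*} [DecidableEq V] {p : V → V} {r : V}

/-- An intermediate even set of size `2^k`. -/
theorem exists_between {E X : Finset V} (hE : EvenFib p E) (hX : EvenFib p X) (hEX : E ⊆ X)
    {k : ℕ} (hk : 1 ≤ k) (h1 : E.card ≤ 2 ^ k) (h2 : 2 ^ k ≤ X.card) :
    ∃ E' : Finset V, E ⊆ E' ∧ E' ⊆ X ∧ EvenFib p E' ∧ E'.card = 2 ^ k := by
  obtain ⟨a, ha⟩ := hE.card_even
  have hev : EvenFib p (X \ E) := hX.sdiff hE hEX
  have hc : (X \ E).card + E.card = X.card := by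
    rw [card_sdiff_of_subset hEX]
    have := card_le_card hEX
    omega
  obtain ⟨b, hb⟩ : ∃ b, 2 ^ k = 2 * b := ⟨2 ^ (k - 1), by
    rw [← pow_succ']
    congr 1
    omega⟩
  obtain ⟨Z, hZX, hZc, hZe⟩ := exists_evenFib_subset hev (b - a) (by omega)
  have hd : Disjoint E Z := by
    rw [Finset.disjoint_left]
    intro v h3 h4
    exact (mem_sdiff.1 (hZX h4)).2 h3
  refine ⟨E ∪ Z, subset_union_left, union_subset hEX (hZX.trans sdiff_subset),
    hE.union hZe hd, ?_⟩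
  rw [card_union_of_disjoint hd, hZc]
  omega

/-- Extension to a larger even set, all parents being labelled. -/
theorem ext_plab {E E' : Finset V} {i k : ℕ} (hi : 1 ≤ i) (hr : r ∈ E)
    (hpE : ∀ v ∈ E, p v ∈ E) (hEe : EvenFib p E) (hEc : E.card = 2 ^ i)
    (hlab : PLab p r E (Fin i → ZMod 2)) (hEE' : E ⊆ E') (hE'e : EvenFib p E')
    (hE'c : E'.card = 2 ^ k) (hpE' : ∀ v ∈ E', p v ∈ E) : PLab p r E' (Fin k → ZMod 2) :=
  plab_extend' ⟨hr, hpE, fun w _ => hEe w⟩
    ⟨hEE' hr, fun v hv => hEE' (hpE' v hv), fun w _ => hE'e w⟩ hEE' hi hEc hE'c hpE' hlab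

/-- The largest power of two which is at most `a`. -/
theorem exists_log {a : ℕ} (ha : 2 ≤ a) : ∃ i : ℕ, 1 ≤ i ∧ 2 ^ i ≤ a ∧ a < 2 ^ (i + 1) := by
  refine ⟨Nat.log 2 a, Nat.log_pos (by norm_num) ha, Nat.pow_log_le_self 2 (by omega),
    Nat.lt_pow_succ_log_self (by norm_num) a⟩

/-- The closed sets `A j`. -/
theorem exists_closures [Fintype V] (hev : EvenFib p (univ : Finset V)) (P : ℕ → Finset V)
    (hP0 : P 0 = univ) (hanti : ∀ j, P (j + 1) ⊆ P j) :
    ∃ A : ℕ → Finset V, (∀ j, P j ⊆ A j) ∧ (∀ j, A (j + 1) ⊆ A j) ∧ (∀ j, EvenFib p (A j)) ∧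
      (∀ j, (A j).card = (P j).card + (oddPar p (P j)).card) ∧
      ∀ j, ∀ v ∈ A j, v ∉ P j → p v ∈ oddPar p (P j) := by
  have hgood : ∃ A : (j : ℕ) → {X : Finset V // P j ⊆ X ∧ EvenFib p X ∧
      X.card = (P j).card + (oddPar p (P j)).card ∧ ∀ v ∈ X, v ∉ P j → p v ∈ oddPar p (P j)},
      ∀ j, (A (j + 1)).1 ⊆ (A j).1 := by
    have hstep : ∀ (j : ℕ) (X : {X : Finset V // P j ⊆ X ∧ EvenFib p X ∧
        X.card = (P j).card + (oddPar p (P j)).card ∧ ∀ v ∈ X, v ∉ P j → p v ∈ oddPar p (P j)}),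
        ∃ Y : {X : Finset V // P (j + 1) ⊆ X ∧ EvenFib p X ∧
        X.card = (P (j + 1)).card + (oddPar p (P (j + 1))).card ∧
        ∀ v ∈ X, v ∉ P (j + 1) → p v ∈ oddPar p (P (j + 1))}, Y.1 ⊆ X.1 := by
      rintro j ⟨X, h1, h2, -, -⟩
      obtain ⟨M, hMX, hd, he, hc, hM, -⟩ := exists_evenClosure h2 ((hanti j).trans h1)
      refine ⟨⟨P (j + 1) ∪ M, subset_union_left, he, ?_, ?_⟩,
        union_subset ((hanti j).trans h1) hMX⟩
      · rw [card_union_of_disjoint hd, hc]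
      · intro v hv hvP
        rcases mem_union.1 hv with h | h
        · exact (hvP h).elim
        · exact hM v h
    choose f hf using hstep
    have hodd : oddPar p (P 0) = ∅ := by
      rw [eq_empty_iff_forall_notMem]
      intro w hw
      rw [mem_oddPar, hP0] at hw
      exact (Nat.not_even_iff_odd.2 hw) (hev w)
    have h0 : P 0 ⊆ univ ∧ EvenFib p (univ : Finset V) ∧
        (univ : Finset V).card = (P 0).card + (oddPar p (P 0)).card ∧
        ∀ v ∈ (univ : Finset V), v ∉ P 0 → p v ∈ oddPar p (P 0) := by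
      refine ⟨subset_univ _, hev, by rw [hodd, hP0, card_empty, add_zero], ?_⟩
      intro v _ hv
      rw [hP0] at hv
      exact (hv (mem_univ v)).elim
    exact ⟨fun j => Nat.rec ⟨univ, h0⟩ (fun j X => f j X) j, fun j => hf j _⟩
  obtain ⟨A, hA⟩ := hgood
  exact ⟨fun j => (A j).1, fun j => (A j).2.1, hA, fun j => (A j).2.2.1, fun j => (A j).2.2.2.1,
    fun j => (A j).2.2.2.2⟩

end

end Pool.Agent.H67.TP
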