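import Mathlib
import Pool.Agent.H57.SS.Core

/-!
# TP/Core: a set-graceful labelling of an induced subtree gives a partial labelling
-/

set_option autoImplicit false

open Finset

namespace Pool.Agent.H67.TP

open Pool.Agent.H57.SS

variable {V : Type*} [Fintype V] [DecidableEq V] {T : SimpleGraph V} [DecidableRel T.Adj]

omit [DecidableRel T.Adj] in
theorem sub_isTree (hT : T.IsTree) (r : V) {E : Finset V} (hE : Closed (par hT r) r E) :
    (T.comap (fun x : E => (x : V))).IsTree := by
  have hpre : ∀ (d : ℕ) (v : V) (hv : v ∈ E), T.dist r v = d →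
      (T.comap (fun x : E => (x : V))).Reachable ⟨v, hv⟩ ⟨r, hE.root⟩ := by
    intro d
    induction d with
    | zero =>
      intro v hv hd
      by_cases h : v = r
      · subst h
        exact SimpleGraph.Reachable.refl _
      · have := dist_par hT r v h
        omega
    | succ d ih =>
      intro v hv hd
      by_cases h : v = r
      · subst h
        exact SimpleGraph.Reachable.refl _
      · have h1 := dist_par hT r v h
        have h2 := ih (par hT r v) (hE.parent v hv) (by omega)
        have h3 : (T.comap (fun x : E => (x : V))).Adj ⟨v, hv⟩ ⟨par hT r v, hE.parent v hv⟩ :=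
          adj_par hT r v h
        exact h3.reachable.trans h2
  have hne : Nonempty E := ⟨⟨r, hE.root⟩⟩
  refine ⟨⟨?_⟩, ?_⟩
  · intro a b
    exact (hpre _ a.1 a.2 rfl).trans (hpre _ b.1 b.2 rfl).symm
  · exact hT.isAcyclic.comap ⟨fun x : E => (x : V), fun h => h⟩ Subtype.val_injective

theorem nb_filter (hT : T.IsTree) (r : V) {E : Finset V} (hE : Closed (par hT r) r E) {v : V}
    (hv : v ∈ E) (hvr : v ≠ r) :
    (E.filter (fun b => T.Adj v b)).card = (E.filter (fun b => par hT r b = v)).card + 1 := by
  have h1 : E.filter (fun b => T.Adj v b)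
      = insert (par hT r v) (E.filter (fun b => par hT r b = v)) := by
    ext b
    rw [mem_filter, mem_insert, mem_filter, adj_iff_par hT r v b]
    constructor
    · rintro ⟨hb, ⟨-, h⟩ | ⟨-, h⟩⟩
      · exact Or.inl h.symm
      · exact Or.inr ⟨hb, h⟩
    · rintro (h | ⟨hb, h⟩)
      · rw [h]
        exact ⟨hE.parent v hv, Or.inl ⟨hvr, rfl⟩⟩
      · refine ⟨hb, Or.inr ⟨?_, h⟩⟩
        rintro rfl
        rw [par_root] at h
        exact hvr h.symm
  rw [h1, card_insert_of_notMem]
  rw [mem_filter]
  rintro ⟨-, h⟩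
  by_cases hp : par hT r v = r
  · rw [hp, par_root] at h
    exact hvr h.symm
  · have h2 := dist_par hT r _ hp
    have h3 := dist_par hT r v hvr
    rw [h] at h2
    omega

theorem nb_filter_root (hT : T.IsTree) (r : V) {E : Finset V} (hE : Closed (par hT r) r E) :
    (E.filter (fun b => T.Adj r b)).card + 1 = (E.filter (fun b => par hT r b = r)).card := by
  have h1 : E.filter (fun b => T.Adj r b) = (E.filter (fun b => par hT r b = r)).erase r := by
    ext b
    rw [mem_filter, mem_erase, mem_filter, adj_iff_par hT r r b]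
    constructor
    · rintro ⟨hb, ⟨h, -⟩ | ⟨h1, h2⟩⟩
      · exact (h rfl).elim
      · exact ⟨h1, hb, h2⟩
    · rintro ⟨h1, hb, h2⟩
      exact ⟨hb, Or.inr ⟨h1, h2⟩⟩
  have h2 : r ∈ E.filter (fun b => par hT r b = r) := mem_filter.2 ⟨hE.root, par_root hT r⟩
  rw [h1, card_erase_of_mem h2]
  have := card_pos.2 ⟨r, h2⟩
  omega

omit [Fintype V] in
theorem sub_degree {E : Finset V} (v : E)
    [DecidableRel (T.comap (fun x : E => (x : V))).Adj] :
    (T.comap (fun x : E => (x : V))).degree v = (E.filter (fun b => T.Adj v b)).card := by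
  rw [← SimpleGraph.card_neighborFinset_eq_degree,
    ← card_image_of_injective _ Subtype.val_injective]
  congr 1
  ext b
  rw [mem_image, mem_filter]
  constructor
  · rintro ⟨x, hx, rfl⟩
    rw [SimpleGraph.mem_neighborFinset] at hx
    exact ⟨x.2, hx⟩
  · rintro ⟨hb, h⟩
    exact ⟨⟨b, hb⟩, by rw [SimpleGraph.mem_neighborFinset]; exact h, rfl⟩

omit [DecidableRel T.Adj] in
/-- A set-graceful labelling of the subtree gives a partial labelling of the tree. -/
theorem plab_of_sub (hT : T.IsTree) (r : V) {E : Finset V} (hE : Closed (par hT r) r E)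
    {c : ℕ} (hcE : E.card = 2 ^ c) (g : E → (Fin c → ZMod 2)) (hg : Function.Injective g)
    (hgE : ∀ a b c d : E, T.Adj a b → T.Adj c d → g a + g b = g c + g d →
      s(a, b) = s(c, d)) :
    PLab (par hT r) r E (Fin c → ZMod 2) := by
  obtain ⟨z, hz⟩ : ∃ z, z = g ⟨r, hE.root⟩ := ⟨_, rfl⟩
  obtain ⟨f, hf⟩ : ∃ f : V → (Fin c → ZMod 2), ∀ v (hv : v ∈ E), f v = g ⟨v, hv⟩ + z :=
    ⟨fun v => if h : v ∈ E then g ⟨v, h⟩ + z else 0, fun v hv => by simp only [dif_pos hv]⟩
  have hf0 : f r = 0 := by rw [hf r hE.root, ← hz, add_self_fin]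
  have hinj : Set.InjOn f E := by
    intro a ha b hb hab
    rw [mem_coe] at ha hb
    rw [hf a ha, hf b hb] at hab
    have := hg (add_right_cancel hab)
    exact congrArg Subtype.val this
  have hs : ∀ v (hv : v ∈ E), f v + f (par hT r v)
      = g ⟨v, hv⟩ + g ⟨par hT r v, hE.parent v hv⟩ := by
    intro v hv
    rw [hf v hv, hf _ (hE.parent v hv)]
    have h1 : ∀ x y : Fin c → ZMod 2, x + z + (y + z) = x + y + (z + z) := by
      intro x y; abel
    rw [h1, add_self_fin, add_zero]
  have hne : ∀ v (hv : v ∈ E), v ≠ r → f v + f (par hT r v) ≠ 0 := by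
    intro v hv hvr h
    rw [hs v hv] at h
    have h1 : g ⟨v, hv⟩ = g ⟨par hT r v, hE.parent v hv⟩ := by
      have h2 : g ⟨v, hv⟩ + (g ⟨par hT r v, hE.parent v hv⟩ + g ⟨par hT r v, hE.parent v hv⟩)
          = g ⟨par hT r v, hE.parent v hv⟩ := by
        rw [← add_assoc, h, zero_add]
      rwa [add_self_fin, add_zero] at h2
    have h2 := congrArg Subtype.val (hg h1)
    have h3 := adj_par hT r v hvr
    exact h3.ne h2
  have hsinj : Set.InjOn (fun v => f v + f (par hT r v)) E := by
    intro a ha b hb hab
    rw [mem_coe] at ha hb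
    simp only at hab
    by_cases har : a = r
    · by_cases hbr : b = r
      · rw [har, hbr]
      · exfalso
        rw [har, par_root, add_self_fin] at hab
        exact hne b hb hbr hab.symm
    · by_cases hbr : b = r
      · exfalso
        rw [hbr, par_root, add_self_fin] at hab
        exact hne a ha har hab
      · rw [hs a ha, hs b hb] at hab
        have h1 := hgE ⟨a, ha⟩ ⟨par hT r a, hE.parent a ha⟩ ⟨b, hb⟩ ⟨par hT r b, hE.parent b hb⟩
          (adj_par hT r a har) (adj_par hT r b hbr) hab
        rw [Sym2.eq_iff] at h1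
        rcases h1 with ⟨h1, -⟩ | ⟨h1, h2⟩
        · exact congrArg Subtype.val h1
        · have h3 : a = par hT r b := congrArg Subtype.val h1
          have h4 : par hT r a = b := congrArg Subtype.val h2
          have h5 := dist_par hT r a har
          have h6 := dist_par hT r b hbr
          rw [h4] at h5
          rw [← h3] at h6
          omega
  have huniv : ∀ F : V → (Fin c → ZMod 2), Set.InjOn F E → E.image F = univ := by
    intro F hF
    rw [← card_eq_iff_eq_univ, card_image_of_injOn hF, hcE]
    simp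
  exact ⟨f, hf0, hinj, by rw [huniv _ hinj, huniv _ hsinj]⟩

/-- The core: if every odd tree with the given properties is set-graceful, then `E` can be
labelled. -/
theorem core_plab (hT : T.IsTree) (r : V) {E : Finset V} (hE : Closed (par hT r) r E)
    (hev : EvenFib (par hT r) E) {c : ℕ} (hcE : E.card = 2 ^ c)
    (hgr : ∀ (T' : SimpleGraph E) (_ : DecidableRel T'.Adj), T'.IsTree →
      (∀ v, Odd (T'.degree v)) → (∀ a b : E, T'.Adj a b ↔ T.Adj a b) →
      (∀ v : E, T'.degree v = (E.filter (fun b => T.Adj v b)).card) →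
      ∃ g : E → (Fin c → ZMod 2), Function.Bijective g ∧
        ∀ a b c d : E, T'.Adj a b → T'.Adj c d → g a + g b = g c + g d → s(a, b) = s(c, d)) :
    PLab (par hT r) r E (Fin c → ZMod 2) := by
  classical
  obtain ⟨g, hg, hgE⟩ := hgr (T.comap (fun x : E => (x : V))) inferInstance
    (sub_isTree hT r hE) (by
      intro v
      rw [sub_degree]
      by_cases hv : (v : V) = r
      · have h1 := nb_filter_root hT r hE
        obtain ⟨k, hk⟩ := hev r
        rw [hv]
        exact ⟨k - 1, by omega⟩
      · rw [nb_filter hT r hE v.2 hv]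
        obtain ⟨k, hk⟩ := hev (v : V)
        exact ⟨k, by omega⟩) (fun a b => Iff.rfl) (fun v => sub_degree v)
  exact plab_of_sub hT r hE hcE g hg.1 (fun a b c d hab hcd => hgE a b c d hab hcd)

end Pool.Agent.H67.TP
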