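import Mathlib
import Pool.Agent.H67.TP.Core
import Pool.Agent.H60.FN.TreeA
import Pool.Agent.H57.SS.TwoCenters
import Pool.Agent.H60.LN.LinTree
import Pool.Agent.H60.FN.TreeC
import Pool.Agent.H67.CT.Asm

/-!
# TP/Prune: iterated pruning, the base cases
-/

set_option autoImplicit false

open Finset

namespace Pool.Agent.H67.TP

open Pool.Agent.H57.SS Pool.Agent.H60.FN

universe u

/-- The vertices which are left after the leaves (and isolated vertices) have been removed `i`
times. -/
def lev {V : Type*} [Fintype V] (T : SimpleGraph V) [DecidableRel T.Adj] : ℕ → Finset V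
  | 0 => univ
  | (i + 1) => (lev T i).filter (fun v => 2 ≤ ((lev T i).filter (fun u => T.Adj v u)).card)

section

variable {V : Type*} [Fintype V] {T : SimpleGraph V} [DecidableRel T.Adj]

theorem lev_succ (i : ℕ) {v : V} : v ∈ lev T (i + 1) ↔
    v ∈ lev T i ∧ 2 ≤ ((lev T i).filter (fun u => T.Adj v u)).card := by
  rw [lev, mem_filter]

theorem mem_lev_one (hodd : ∀ v, Odd (T.degree v)) {v : V} :
    v ∈ lev T 1 ↔ T.degree v ≠ 1 := by
  rw [show (1 : ℕ) = 0 + 1 from rfl, lev_succ]
  have h1 : ((lev T 0).filter (fun u => T.Adj v u)).card = T.degree v := by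
    rw [← SimpleGraph.card_neighborFinset_eq_degree]
    congr 1
    ext u
    rw [lev, mem_filter, SimpleGraph.mem_neighborFinset]
    exact ⟨fun h => h.2, fun h => ⟨mem_univ _, h⟩⟩
  rw [h1]
  have h2 := (hodd v).pos
  constructor
  · rintro ⟨-, h⟩
    omega
  · intro h
    exact ⟨by rw [lev]; exact mem_univ _, by omega⟩

end

section

variable {V : Type*} [Fintype V] [DecidableEq V] {T : SimpleGraph V} [DecidableRel T.Adj]

/-- The root `r`: the parents of the vertices of `lev T 1` are in `lev T 2`. -/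
theorem par_mem (hT : T.IsTree) (hodd : ∀ v, Odd (T.degree v)) {r : V} (hrd : T.degree r ≠ 1)
    {v : V} (hv : v ∈ lev T 1) : par hT r v ∈ insert r (lev T 2) := by
  by_cases hvr : v = r
  · rw [hvr, par_root]; exact mem_insert_self _ _
  by_cases hpr : par hT r v = r
  · rw [hpr]; exact mem_insert_self _ _
  apply mem_insert_of_mem
  have hpd : ∀ v, par hT r v ∈ lev T 1 :=
    fun v => (mem_lev_one hodd).2 (par_degree_ne_one hT hrd v)
  rw [show (2 : ℕ) = 1 + 1 from rfl, lev_succ]
  refine ⟨hpd v, ?_⟩
  have h1 : ({v, par hT r (par hT r v)} : Finset V)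
      ⊆ (lev T 1).filter (fun u => T.Adj (par hT r v) u) := by
    intro u hu
    rw [mem_insert, mem_singleton] at hu
    rw [mem_filter]
    rcases hu with hu | hu
    · rw [hu]
      exact ⟨hv, (adj_par hT r v hvr).symm⟩
    · rw [hu]
      exact ⟨hpd _, adj_par hT r _ hpr⟩
  have h2 : v ≠ par hT r (par hT r v) := by
    intro h
    have h3 := dist_par hT r v hvr
    have h4 := dist_par hT r _ hpr
    rw [← h] at h4
    omega
  have h3 := card_le_card h1
  rw [card_pair h2] at h3
  exact h3

theorem evenFib_univ (hT : T.IsTree) (hodd : ∀ v, Odd (T.degree v)) (r : V) :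
    EvenFib (par hT r) (univ : Finset V) := by
  intro w
  by_cases hw : w = r
  · subst hw
    have h1 := card_children_root hT w
    obtain ⟨k, hk⟩ := hodd w
    exact ⟨k + 1, by omega⟩
  · have h1 := card_children hT r w hw
    obtain ⟨k, hk⟩ := hodd w
    exact ⟨k, by omega⟩

end

/-- At most two vertices are left after two prunings. -/
theorem base_two {V : Type u} [Fintype V] [DecidableEq V] {T : SimpleGraph V}
    [DecidableRel T.Adj] (hT : T.IsTree) (hodd : ∀ v, Odd (T.degree v)) {n : ℕ}
    (hcV : Fintype.card V = 2 ^ n) (h : (lev T 2).card ≤ 2) :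
    ∃ g : V → (Fin n → ZMod 2), Function.Bijective g ∧
      ∀ a b c d : V, T.Adj a b → T.Adj c d → g a + g b = g c + g d → s(a, b) = s(c, d) := by
  classical
  have hL21 : ∀ v ∈ lev T 2, v ∈ lev T 1 := fun v hv => ((lev_succ 1).1 hv).1
  have hneV : Nonempty V := hT.connected.nonempty
  obtain ⟨r, hr1, hr2⟩ : ∃ r : V, ((lev T 1).Nonempty → T.degree r ≠ 1) ∧
      ((lev T 2).Nonempty → r ∈ lev T 2) := by
    by_cases h2 : (lev T 2).Nonempty
    · obtain ⟨r, hr⟩ := h2
      exact ⟨r, fun _ => (mem_lev_one hodd).1 (hL21 r hr), fun _ => hr⟩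
    · by_cases h1 : (lev T 1).Nonempty
      · obtain ⟨r, hr⟩ := h1
        exact ⟨r, fun _ => (mem_lev_one hodd).1 hr, fun h => (h2 h).elim⟩
      · obtain ⟨r⟩ := hneV
        exact ⟨r, fun h => (h1 h).elim, fun h => (h2 h).elim⟩
  have hpar : ∀ v, T.degree v ≠ 1 → par hT r v ∈ insert r (lev T 2) := by
    intro v hv
    have h1 := (mem_lev_one hodd).2 hv
    exact par_mem hT hodd (hr1 ⟨v, h1⟩) h1
  obtain ⟨z, hzr, hpz, hz⟩ : ∃ z, z ≠ r ∧ par hT r z = r ∧ ∀ v ∈ lev T 2, v = r ∨ v = z := by
    by_cases h2 : ∃ z ∈ lev T 2, z ≠ r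
    · obtain ⟨z, hz, hzr⟩ := h2
      have hrL := hr2 ⟨z, hz⟩
      have h3 : lev T 2 = {r, z} := by
        symm
        apply eq_of_subset_of_card_le
        · intro v hv
          rw [mem_insert, mem_singleton] at hv
          rcases hv with hv | hv
          · rw [hv]; exact hrL
          · rw [hv]; exact hz
        · rw [card_pair hzr.symm]; exact h
      refine ⟨z, hzr, ?_, ?_⟩
      · have h4 := hpar z ((mem_lev_one hodd).1 (hL21 z hz))
        rw [h3, mem_insert, mem_insert, mem_singleton] at h4
        rcases h4 with h4 | h4 | h4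
        · exact h4
        · exact h4
        · have := (adj_par hT r z hzr).ne
          exact (this h4.symm).elim
      · intro v hv
        rw [h3, mem_insert, mem_singleton] at hv
        exact hv
    · have h3 : 0 < T.degree r := (hodd r).pos
      rw [T.degree_pos_iff_exists_adj] at h3
      obtain ⟨z, hz⟩ := h3
      have h4 := (adj_iff_par hT r r z).1 hz
      rcases h4 with ⟨h4, -⟩ | ⟨h4, h5⟩
      · exact (h4 rfl).elim
      · refine ⟨z, h4, h5, ?_⟩
        intro v hv
        left
        by_contra hcon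
        exact h2 ⟨v, hv, hcon⟩
  refine exists_graceful hT r hcV (plab_twoCenters hT r z hodd hcV hzr hpz ?_)
  intro v hv
  have h1 := hpar v hv
  rw [mem_insert] at h1
  rcases h1 with h1 | h1
  · exact Or.inl h1
  · exact hz _ h1

/-- The pruned tree is a path. -/
theorem base_path {V : Type u} [Fintype V] [DecidableEq V] {T : SimpleGraph V}
    [DecidableRel T.Adj] (hT : T.IsTree) (hodd : ∀ v, Odd (T.degree v)) {n : ℕ}
    (hcV : Fintype.card V = 2 ^ n)
    (h : ∀ v ∈ lev T 1, ((lev T 1).filter (fun u => T.Adj v u)).card ≤ 2) :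
    ∃ g : V → (Fin n → ZMod 2), Function.Bijective g ∧
      ∀ a b c d : V, T.Adj a b → T.Adj c d → g a + g b = g c + g d → s(a, b) = s(c, d) := by
  obtain ⟨r, hr⟩ := Pool.Agent.H67.CT.plab_caterpillar hT hodd (n := n) (by
    intro v
    by_cases hv : v ∈ lev T 1
    · refine le_trans (card_le_card ?_) (h v hv)
      intro w hw
      rw [mem_filter] at hw ⊢
      exact ⟨(mem_lev_one hodd).2 hw.2.2, hw.2.1⟩
    · have h1 : T.degree v = 1 := by
        by_contra hcon
        exact hv ((mem_lev_one hodd).2 hcon)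
      refine le_trans (card_le_card (t := T.neighborFinset v) ?_) ?_
      · intro w hw
        rw [mem_filter] at hw
        rw [SimpleGraph.mem_neighborFinset]
        exact hw.2.1
      · rw [SimpleGraph.card_neighborFinset_eq_degree]
        omega) hcV
  exact exists_graceful hT r hcV hr

/-- The constant of the theorem on trees with few non-leaves. -/
def cM (n : ℕ) : ℕ := min (2 ^ 84) (5000 * n)

theorem cM_mono {c n : ℕ} (h : c ≤ n) : cM c ≤ cM n := by
  unfold cM
  omega

/-- Few non-leaves. -/
theorem base_few {V : Type u} [Fintype V] [DecidableEq V] {T : SimpleGraph V}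
    [DecidableRel T.Adj] (hT : T.IsTree) (hodd : ∀ v, Odd (T.degree v)) {n : ℕ}
    (hcV : Fintype.card V = 2 ^ n) (h : cM n * (lev T 1).card ≤ 2 ^ n) :
    ∃ g : V → (Fin n → ZMod 2), Function.Bijective g ∧
      ∀ a b c d : V, T.Adj a b → T.Adj c d → g a + g b = g c + g d → s(a, b) = s(c, d) := by
  have h1 : (univ.filter (fun v => T.degree v ≠ 1)).card ≤ (lev T 1).card := by
    refine card_le_card ?_
    intro v hv
    exact (mem_lev_one hodd).2 (mem_filter.1 hv).2
  have h2 := (Nat.mul_le_mul_left (cM n) h1).trans h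
  unfold cM at h2
  rcases le_total (2 ^ 84) (5000 * n) with h3 | h3
  · rw [min_eq_left h3] at h2
    exact Pool.Agent.H60.LN.graceful_linear hT hodd hcV h2
  · rw [min_eq_right h3] at h2
    obtain ⟨t, ht⟩ := Pool.Agent.H60.FN.exists_scale hT hodd hcV h2
    exact Pool.Agent.H60.FN.graceful_of_scale hT hodd hcV ht

end Pool.Agent.H67.TP
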