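import Mathlib
import Pool.Agent.H67.TP.Prune
import Pool.Agent.H67.TP.Chain

/-!
# TP/ChainC: odd trees and their iterated prunings
-/

set_option autoImplicit false

open Finset

namespace Pool.Agent.H67.TP

open Pool.Agent.H57.SS Pool.Agent.H60.FN

universe u

section

variable {V : Type u} [Fintype V] {T : SimpleGraph V} [DecidableRel T.Adj]

theorem lev_anti1 (i : ℕ) : lev T (i + 1) ⊆ lev T i := fun _ hv => ((lev_succ i).1 hv).1

theorem lev_le {i j : ℕ} (h : i ≤ j) : lev T j ⊆ lev T i := by
  have : ∀ k, lev T (i + k) ⊆ lev T i := by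
    intro k
    induction k with
    | zero => exact Subset.rfl
    | succ k ih => exact (lev_anti1 (i + k)).trans ih
  have h1 := this (j - i)
  rwa [show i + (j - i) = j by omega] at h1

/-- The vertices of `P` with an even number of neighbours in `P`. -/
def evenDeg {V : Type u} (T : SimpleGraph V) [DecidableRel T.Adj] (P : Finset V) : Finset V :=
  P.filter (fun v => Even (P.filter (fun u => T.Adj v u)).card)

end

section

variable {V : Type u} [Fintype V] [DecidableEq V] {T : SimpleGraph V} [DecidableRel T.Adj]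

/-- The vertices of `P` and their neighbours. -/
def nbhd {V : Type u} [Fintype V] [DecidableEq V] (T : SimpleGraph V) [DecidableRel T.Adj]
    (P : Finset V) : Finset V :=
  univ.filter (fun v => v ∈ P ∨ ∃ u ∈ P, T.Adj v u)

theorem lev_par_step (hT : T.IsTree) {r : V} {j : ℕ} (hr : r ∈ lev T (j + 1))
    (h : ∀ v ∈ lev T j, par hT r v ∈ lev T j) : ∀ v ∈ lev T j, par hT r v ∈ lev T (j + 1) := by
  intro v hv
  by_cases hvr : v = r
  · rw [hvr, par_root]; exact hr
  by_cases hpr : par hT r v = r
  · rw [hpr]; exact hr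
  rw [lev_succ]
  refine ⟨h v hv, ?_⟩
  have h1 : ({v, par hT r (par hT r v)} : Finset V)
      ⊆ (lev T j).filter (fun u => T.Adj (par hT r v) u) := by
    intro u hu
    rw [mem_insert, mem_singleton] at hu
    rw [mem_filter]
    rcases hu with hu | hu
    · rw [hu]
      exact ⟨hv, (adj_par hT r v hvr).symm⟩
    · rw [hu]
      exact ⟨h _ (h v hv), adj_par hT r _ hpr⟩
  have h2 : v ≠ par hT r (par hT r v) := by
    intro h
    have h3 := dist_par hT r v hvr
    have h4 := dist_par hT r _ hpr
    rw [← h] at h4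
    omega
  have h3 := card_le_card h1
  rw [card_pair h2] at h3
  exact h3

theorem lev_par (hT : T.IsTree) {r : V} {m : ℕ} (hr : r ∈ lev T m) (j : ℕ) (hj : j ≤ m) :
    ∀ v ∈ lev T j, par hT r v ∈ lev T j := by
  induction j with
  | zero =>
    intro v _
    rw [lev]
    exact mem_univ _
  | succ j ih =>
    intro v hv
    exact lev_par_step hT (lev_le hj hr) (ih (by omega)) v (lev_anti1 j hv)

theorem lev_par' (hT : T.IsTree) {r : V} {m : ℕ} (hr : r ∈ lev T m) (j : ℕ) (hj : j < m) :
    ∀ v ∈ lev T j, par hT r v ∈ lev T (j + 1) :=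
  lev_par_step hT (lev_le (by omega) hr) (lev_par hT hr j (by omega))

theorem exists_child_lev (hT : T.IsTree) {r : V} {j : ℕ} (hr : r ∈ lev T j) :
    ∀ u ∈ lev T (j + 1), ∃ v ∈ lev T j, par hT r v = u := by
  intro u hu
  by_cases hur : u = r
  · exact ⟨r, hr, by rw [par_root, hur]⟩
  · have h1 := ((lev_succ j).1 hu).2
    obtain ⟨v, hv, hvp⟩ := exists_mem_ne
      (s := (lev T j).filter (fun w => T.Adj u w)) (by omega) (par hT r u)
    rw [mem_filter] at hv
    refine ⟨v, hv.1, ?_⟩
    rcases (adj_iff_par hT r u v).1 hv.2 with h | h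
    · exact (hvp h.2.symm).elim
    · exact h.2

theorem nb_gen (hT : T.IsTree) (r : V) {E : Finset V} (hE : ∀ v ∈ E, par hT r v ∈ E) {v : V}
    (hv : v ∈ E) (hvr : v ≠ r) :
    (E.filter (fun b => T.Adj v b)).card = (E.filter (fun b => par hT r b = v)).card + 1 := by
  have h1 : E.filter (fun b => T.Adj v b)
      = insert (par hT r v) (E.filter (fun b => par hT r b = v)) := by
    ext b
    rw [mem_filter, mem_insert, mem_filter, adj_iff_par hT r v b]
    constructor
    · rintro ⟨hb, ⟨-, h⟩ | ⟨-, h⟩⟩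
      · exact Or.inl h.symm
      · exact Or.inr ⟨hb, h⟩
    · rintro (h | ⟨hb, h⟩)
      · rw [h]
        exact ⟨hE v hv, Or.inl ⟨hvr, rfl⟩⟩
      · refine ⟨hb, Or.inr ⟨?_, h⟩⟩
        rintro rfl
        rw [par_root] at h
        exact hvr h.symm
  rw [h1, card_insert_of_notMem]
  rw [mem_filter]
  rintro ⟨-, h⟩
  by_cases hp : par hT r v = r
  · rw [hp, par_root] at h
    exact hvr h.symm
  · have h2 := dist_par hT r _ hp
    have h3 := dist_par hT r v hvr
    rw [h] at h2
    omega

theorem nb_gen_root (hT : T.IsTree) {r : V} {E : Finset V} (hr : r ∈ E) :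
    (E.filter (fun b => T.Adj r b)).card + 1 = (E.filter (fun b => par hT r b = r)).card := by
  have h1 : E.filter (fun b => T.Adj r b) = (E.filter (fun b => par hT r b = r)).erase r := by
    ext b
    rw [mem_filter, mem_erase, mem_filter, adj_iff_par hT r r b]
    constructor
    · rintro ⟨hb, ⟨h, -⟩ | ⟨h1, h2⟩⟩
      · exact (h rfl).elim
      · exact ⟨h1, hb, h2⟩
    · rintro ⟨h1, hb, h2⟩
      exact ⟨hb, Or.inr ⟨h1, h2⟩⟩
  have h2 : r ∈ E.filter (fun b => par hT r b = r) := mem_filter.2 ⟨hr, par_root hT r⟩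
  rw [h1, card_erase_of_mem h2]
  have := card_pos.2 ⟨r, h2⟩
  omega

theorem oddPar_eq (hT : T.IsTree) {r : V} {P : Finset V} (hr : r ∈ P)
    (hp : ∀ v ∈ P, par hT r v ∈ P) : oddPar (par hT r) P = evenDeg T P := by
  ext w
  rw [mem_oddPar, evenDeg, mem_filter]
  by_cases hw : w ∈ P
  · by_cases hwr : w = r
    · subst hwr
      have h1 := nb_gen_root hT hr
      rw [← h1, Nat.odd_add_one, Nat.not_odd_iff_even]
      exact ⟨fun h => ⟨hw, h⟩, fun h => h.2⟩
    · have h1 := nb_gen hT r hp hw hwr
      rw [h1, Nat.even_add_one, Nat.not_even_iff_odd]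
      exact ⟨fun h => ⟨hw, h⟩, fun h => h.2⟩
  · have h1 : P.filter (fun v => par hT r v = w) = ∅ := by
      apply filter_false_of_mem
      intro v hv h
      exact hw (h ▸ hp v hv)
    rw [h1, card_empty]
    exact ⟨fun h => (by simp at h), fun h => (hw h.1).elim⟩

theorem nbhd_eq (hT : T.IsTree) {r : V} {P : Finset V} (hr : r ∈ P)
    (hp : ∀ v ∈ P, par hT r v ∈ P) : univ.filter (fun v => par hT r v ∈ P) = nbhd T P := by
  ext v
  rw [nbhd, mem_filter, mem_filter]
  refine and_congr_right (fun _ => ?_)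
  constructor
  · intro h
    by_cases hv : v = r
    · exact Or.inl (hv ▸ hr)
    · exact Or.inr ⟨_, h, adj_par hT r v hv⟩
  · rintro (h | ⟨u, hu, h⟩)
    · exact hp v h
    · rcases (adj_iff_par hT r v u).1 h with h1 | h1
      · rw [h1.2]; exact hu
      · have h2 := hp u hu
        rw [h1.2] at h2
        exact hp v h2

omit [Fintype V] [DecidableEq V] in
theorem card_le_sub {E : Finset V} {P' : Finset E} {P : Finset V}
    (h : ∀ v ∈ P', (v : V) ∈ P) : P'.card ≤ P.card := by
  classical
  rw [← card_image_of_injective P' Subtype.val_injective]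
  apply card_le_card
  intro v hv
  rw [mem_image] at hv
  obtain ⟨w, hw, rfl⟩ := hv
  exact h w hw

theorem evenDeg_le (P : Finset V) : (evenDeg T P).card ≤ P.card := card_le_card (filter_subset _ _)

theorem evenDeg_le_succ (hT : T.IsTree) {j : ℕ} (hne : (lev T (j + 1)).Nonempty) :
    (evenDeg T (lev T j)).card ≤ (lev T (j + 1)).card := by
  obtain ⟨r, hr⟩ := hne
  rw [← oddPar_eq hT (lev_anti1 j hr) (lev_par hT hr j (by omega))]
  apply card_le_card
  intro w hw
  rw [mem_oddPar] at hw
  obtain ⟨v, hv⟩ := card_pos.1 hw.pos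
  rw [mem_filter] at hv
  rw [← hv.2]
  exact lev_par' hT hr j (by omega) v hv.1

end

end Pool.Agent.H67.TP
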