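import Mathlib
import Pool.Agent.H67.TP.Chain

/-!
# TP/ChainD: the choice of heavy pairs
-/

set_option autoImplicit false

open Finset

namespace Pool.Agent.H67.TP

open Pool.Agent.H57.SS

section

variable {V : Type*} [DecidableEq V] {p : V → V} {r : V}

/-- A pair of siblings whose weight is at most the average. -/
theorem exists_light (w : V → ℕ) (s : ℕ) : ∀ Z : Finset V, EvenFib p Z → Z.card = 2 * s → 1 ≤ s →
    ∃ v ∈ Z, ∃ v' ∈ Z, v ≠ v' ∧ p v = p v' ∧ (w v + w v') * s ≤ ∑ u ∈ Z, w u := by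
  induction s with
  | zero => intro Z _ _ h; omega
  | succ s ih =>
    intro Z hZ hc _
    have hne : Z.Nonempty := by
      rw [← card_pos]
      omega
    obtain ⟨v, hv⟩ := hne
    obtain ⟨v', hv', hvv', hpv⟩ := exists_mate hZ hv
    by_cases h : (w v + w v') * (s + 1) ≤ ∑ u ∈ Z, w u
    · exact ⟨v, hv, v', hv', hvv'.symm, hpv.symm, h⟩
    · have hsub : ({v, v'} : Finset V) ⊆ Z := by
        intro x hx
        rw [mem_insert, mem_singleton] at hx
        rcases hx with rfl | rfl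
        · exact hv
        · exact hv'
      have hpair : ({v, v'} : Finset V).card = 2 := card_pair hvv'.symm
      have hsum : ∑ u ∈ Z \ {v, v'}, w u + (w v + w v') = ∑ u ∈ Z, w u := by
        rw [← sum_sdiff hsub, sum_pair hvv'.symm]
      have hZ1 : EvenFib p (Z \ {v, v'}) := hZ.sdiff (evenFib_pair hvv'.symm hpv.symm) hsub
      have hc1 : (Z \ {v, v'}).card = 2 * s := by
        rw [card_sdiff_of_subset hsub, hpair]
        omega
      rcases Nat.eq_zero_or_pos s with hs | hs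
      · subst hs
        have : Z \ {v, v'} = ∅ := card_eq_zero.1 (by omega)
        rw [this, sum_empty] at hsum
        omega
      · obtain ⟨x, hx, x', hx', hxx', hpx, hw⟩ := ih _ hZ1 hc1 hs
        refine ⟨x, (mem_sdiff.1 hx).1, x', (mem_sdiff.1 hx').1, hxx', hpx, ?_⟩
        obtain ⟨S, hS⟩ : ∃ S, S = ∑ u ∈ Z, w u := ⟨_, rfl⟩
        obtain ⟨S1, hS1⟩ : ∃ S1, S1 = ∑ u ∈ Z \ {v, v'}, w u := ⟨_, rfl⟩
        rw [← hS1] at hw hsum
        rw [← hS] at h hsum ⊢
        rw [not_le] at h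
        -- `S1 (s+1) < S s`
        have h1 : S1 * (s + 1) < S * s := by nlinarith
        have h2 : (w x + w x') * s * (s + 1) ≤ S1 * (s + 1) := Nat.mul_le_mul_right _ hw
        have h3 : (w x + w x') * (s + 1) * s < S * s := by
          calc (w x + w x') * (s + 1) * s = (w x + w x') * s * (s + 1) := by ring
            _ ≤ S1 * (s + 1) := h2
            _ < S * s := h1
        exact (Nat.lt_of_mul_lt_mul_right h3).le

/-- A heavy even subset. -/
theorem exists_heavy (w : V → ℕ) (k : ℕ) (d : ℕ) : ∀ Z : Finset V, EvenFib p Z →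
    Z.card = 2 * (k + d) → ∃ Z' ⊆ Z, EvenFib p Z' ∧ Z'.card = 2 * k ∧
      (∑ u ∈ Z, w u) * k ≤ (∑ u ∈ Z', w u) * (k + d) := by
  induction d with
  | zero => intro Z hZ hc; exact ⟨Z, Subset.rfl, hZ, by omega, by simp⟩
  | succ d ih =>
    intro Z hZ hc
    obtain ⟨v, hv, v', hv', hvv', hpv, hw⟩ := exists_light w (k + (d + 1)) Z hZ hc (by omega)
    have hsub : ({v, v'} : Finset V) ⊆ Z := by
      intro x hx
      rw [mem_insert, mem_singleton] at hx
      rcases hx with rfl | rfl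
      · exact hv
      · exact hv'
    have hpair : ({v, v'} : Finset V).card = 2 := card_pair hvv'
    have hsum : ∑ u ∈ Z \ {v, v'}, w u + (w v + w v') = ∑ u ∈ Z, w u := by
      rw [← sum_sdiff hsub, sum_pair hvv']
    have hZ1 : EvenFib p (Z \ {v, v'}) := hZ.sdiff (evenFib_pair hvv' hpv) hsub
    have hc1 : (Z \ {v, v'}).card = 2 * (k + d) := by
      rw [card_sdiff_of_subset hsub, hpair]
      omega
    obtain ⟨Z', h1, h2, h3, h4⟩ := ih _ hZ1 hc1
    refine ⟨Z', h1.trans sdiff_subset, h2, h3, ?_⟩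
    rcases Nat.eq_zero_or_pos (k + d) with h0 | h0
    · have hk : k = 0 := by omega
      subst hk
      simp
    · obtain ⟨S, hS⟩ : ∃ S, S = ∑ u ∈ Z, w u := ⟨_, rfl⟩
      obtain ⟨S1, hS1⟩ : ∃ S1, S1 = ∑ u ∈ Z \ {v, v'}, w u := ⟨_, rfl⟩
      obtain ⟨S2, hS2⟩ : ∃ S2, S2 = ∑ u ∈ Z', w u := ⟨_, rfl⟩
      obtain ⟨t, ht⟩ : ∃ t, t = w v + w v' := ⟨_, rfl⟩
      rw [← hS1, ← hS2] at h4
      rw [← hS1, ← hS, ← ht] at hsum
      rw [← hS, ← ht] at hw
      rw [← hS, ← hS2]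
      obtain ⟨e, he⟩ : ∃ e, e = k + d := ⟨_, rfl⟩
      rw [show k + (d + 1) = e + 1 by omega] at hw ⊢
      rw [← he] at h4 h0
      -- `S e ≤ S1 (e + 1)`
      have h5 : S * e ≤ S1 * (e + 1) := by nlinarith
      have h6 : S * e * k ≤ S2 * (e + 1) * e := by
        calc S * e * k ≤ S1 * (e + 1) * k := Nat.mul_le_mul_right _ h5
          _ = S1 * k * (e + 1) := by ring
          _ ≤ S2 * e * (e + 1) := Nat.mul_le_mul_right _ h4
          _ = S2 * (e + 1) * e := by ring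
      have h7 : S * k * e ≤ S2 * (e + 1) * e := by
        calc S * k * e = S * e * k := by ring
          _ ≤ S2 * (e + 1) * e := h6
      exact Nat.le_of_mul_le_mul_right h7 h0

/-- The doubling step with a given set of new vertices. -/
theorem cross' {E B X W : Finset V} {i : ℕ} (hi : 1 ≤ i) (hr : r ∈ E)
    (hpE : ∀ v ∈ E, p v ∈ E) (hEe : EvenFib p E) (hEc : E.card = 2 ^ i)
    (hlab : PLab p r E (Fin i → ZMod 2)) (hBe : EvenFib p B) (hEB : E ⊆ B)
    (hBX : B ⊆ X) (hpB : ∀ v ∈ B, p v ∈ E) (hWe : EvenFib p W) (hWX : W ⊆ X)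
    (hBW : Disjoint B W) (hpW : ∀ v ∈ W, p v ∈ E) (hB1 : B.card ≤ 2 ^ (i + 1))
    (hcount : 2 ^ (i + 1) ≤ W.card + B.card) :
    ∃ E' : Finset V, B ⊆ E' ∧ E' ⊆ X ∧ EvenFib p E' ∧ E'.card = 2 ^ (i + 1) ∧
      PLab p r E' (Fin (i + 1) → ZMod 2) := by
  obtain ⟨E', h1, h2, h3, h4⟩ := exists_between hBe (hBe.union hWe hBW) subset_union_left
    (k := i + 1) (by omega) hB1 (by rw [card_union_of_disjoint hBW]; omega)
  have hpE' : ∀ v ∈ E', p v ∈ E := by
    intro v hv
    rcases mem_union.1 (h2 hv) with h | h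
    · exact hpB v h
    · exact hpW v h
  have hEE' : E ⊆ E' := hEB.trans h1
  refine ⟨E', h1, h2.trans (union_subset hBX hWX), h3, h4, ?_⟩
  exact plab_extend' ⟨hr, hpE, fun w _ => hEe w⟩
    ⟨hEE' hr, fun v hv => hEE' (hpE' v hv), fun w _ => h3 w⟩ hEE' hi hEc h4 hpE' hlab

/-- The inequality of the crossing. -/
theorem cross_arith {x y a N ν : ℕ} (h1 : 2 * y ≤ x) (h2 : 2 * a ≤ ν) (h3 : N ≤ y) (h4 : a ≤ N)
    (h5 : ν ≤ 2 * N) (h6 : ν ≤ x) : (2 * N - ν) * (y - a) ≤ (x - ν) * (N - a) := by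
  zify [h5, h6, h4, h4.trans h3]
  have h7 : (2 * (y : ℤ) - ν) * (N - a) ≤ (x - ν) * (N - a) := by
    apply mul_le_mul_of_nonneg_right
    · have : (2 * (y : ℤ)) ≤ x := by exact_mod_cast h1
      linarith
    · have : (a : ℤ) ≤ N := by exact_mod_cast h4
      linarith
  have h8 : (0 : ℤ) ≤ (y - N) * (ν - 2 * a) := by
    apply mul_nonneg
    · have : (N : ℤ) ≤ y := by exact_mod_cast h3
      linarith
    · have : (2 * (a : ℤ)) ≤ ν := by exact_mod_cast h2
      linarith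
  nlinarith

end

end Pool.Agent.H67.TP
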