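import Mathlib
import Pool.Agent.H67.TP.ChainC

/-!
# TP/ChainE: the inequalities which hold automatically, and the base cases
-/

set_option autoImplicit false

open Finset

namespace Pool.Agent.H67.TP

open Pool.Agent.H57.SS Pool.Agent.H60.FN

universe u

section

variable {V : Type u} [DecidableEq V] {p : V → V} {r : V}

theorem closure_card {X P Q : Finset V} (hX : EvenFib p X) (hPX : P ⊆ X)
    (hpQ : ∀ v ∈ P, p v ∈ Q) (hQ : ∀ u ∈ Q, ∃ v ∈ P, p v = u) (hr : r ∈ Q)
    (hr3 : 3 ≤ (P.filter (fun v => p v = r)).card) :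
    2 * Q.card + 2 ≤ P.card + (oddPar p P).card := by
  obtain ⟨M, hMX, hd, he, hc, hM, -⟩ := exists_evenClosure hX hPX
  have hpodd : ∀ w ∈ oddPar p P, w ∈ Q := by
    intro w hw
    rw [mem_oddPar] at hw
    obtain ⟨v, hv⟩ := card_pos.1 hw.pos
    rw [mem_filter] at hv
    rw [← hv.2]
    exact hpQ v hv.1
  have hpA : ∀ v ∈ P ∪ M, p v ∈ Q := by
    intro v hv
    rcases mem_union.1 hv with h | h
    · exact hpQ v h
    · exact hpodd _ (hM v h)
  have h1 : ∀ u ∈ Q, 2 ≤ ((P ∪ M).filter (fun v => p v = u)).card := by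
    intro u hu
    obtain ⟨v, hv, hpv⟩ := hQ u hu
    have h2 : 0 < ((P ∪ M).filter (fun v => p v = u)).card :=
      card_pos.2 ⟨v, mem_filter.2 ⟨mem_union_left _ hv, hpv⟩⟩
    obtain ⟨k, hk⟩ := he u
    omega
  have h2 : 4 ≤ ((P ∪ M).filter (fun v => p v = r)).card := by
    have h3 := card_le_card (filter_subset_filter (fun v => p v = r)
      (subset_union_left : P ⊆ P ∪ M))
    obtain ⟨k, hk⟩ := he r
    omega
  have h4 : (P ∪ M).card = P.card + (oddPar p P).card := by
    rw [card_union_of_disjoint hd, hc]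
  rw [← h4, card_eq_sum_card_fiberwise (f := p) (t := Q) hpA, ← add_sum_erase Q _ hr]
  have h5 : ∑ _u ∈ Q.erase r, 2 ≤
      ∑ u ∈ Q.erase r, ((P ∪ M).filter (fun v => p v = u)).card :=
    sum_le_sum (fun u hu => h1 u (mem_erase.1 hu).2)
  rw [sum_const, smul_eq_mul, card_erase_of_mem hr] at h5
  have h6 := card_pos.2 ⟨r, hr⟩
  omega

theorem closure_le {X P : Finset V} (hX : EvenFib p X) (hPX : P ⊆ X) :
    P.card + (oddPar p P).card ≤ X.card := by
  obtain ⟨M, hMX, hd, he, hc, hM, -⟩ := exists_evenClosure hX hPX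
  rw [← hc, ← card_union_of_disjoint hd]
  exact card_le_card (union_subset hPX hMX)

end

section

variable {V : Type u} [Fintype V] [DecidableEq V] {T : SimpleGraph V} [DecidableRel T.Adj]

/-- The inequality which holds for every odd tree. -/
theorem lev_card (hT : T.IsTree) (hodd : ∀ v, Odd (T.degree v)) {j : ℕ}
    (hne : (lev T (j + 1)).Nonempty) :
    2 * (lev T (j + 1)).card + 2 ≤ (lev T j).card + (evenDeg T (lev T j)).card := by
  obtain ⟨r, hr⟩ := hne
  have hrj := lev_anti1 j hr
  rw [← oddPar_eq hT hrj (lev_par hT hr j (by omega))]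
  refine closure_card (r := r) (evenFib_univ hT hodd r) (subset_univ _)
    (lev_par' hT hr j (by omega)) (exists_child_lev hT hrj) hr ?_
  have h1 := nb_gen_root hT hrj
  have h2 := ((lev_succ j).1 hr).2
  omega

theorem even_zero (hodd : ∀ v, Odd (T.degree v)) : evenDeg T (lev T 0) = ∅ := by
  rw [evenDeg]
  apply filter_false_of_mem
  intro v _ h
  have h4 : ((lev T 0).filter (fun u => T.Adj v u)).card = T.degree v := by
    rw [← SimpleGraph.card_neighborFinset_eq_degree]
    congr 1
    ext u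
    rw [lev, mem_filter, SimpleGraph.mem_neighborFinset]
    exact ⟨fun h => h.2, fun h => ⟨mem_univ _, h⟩⟩
  rw [h4] at h
  exact (Nat.not_even_iff_odd.2 (hodd v)) h

/-- The closed neighbourhood of `P 2` is large. -/
theorem lev_le_nbhd (hT : T.IsTree) (hodd : ∀ v, Odd (T.degree v)) (hne : (lev T 2).Nonempty) :
    (lev T 1).card + (evenDeg T (lev T 1)).card ≤ (nbhd T (lev T 2)).card := by
  obtain ⟨r, hr⟩ := hne
  have hr1 := lev_anti1 1 hr
  have hev := evenFib_univ hT hodd r
  rw [← oddPar_eq hT hr1 (lev_par hT hr 1 (by omega)), ← nbhd_eq hT hr (lev_par hT hr 2 le_rfl)]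
  refine closure_le ?_ ?_
  · intro w
    by_cases hw : w ∈ lev T 2
    · have h1 : (univ.filter (fun v => par hT r v ∈ lev T 2)).filter (fun v => par hT r v = w)
          = univ.filter (fun v => par hT r v = w) := by
        ext v
        rw [mem_filter, mem_filter, mem_filter]
        exact ⟨fun h => ⟨mem_univ _, h.2⟩, fun h => ⟨⟨mem_univ _, h.2 ▸ hw⟩, h.2⟩⟩
      rw [h1]
      exact hev w
    · have h1 : (univ.filter (fun v => par hT r v ∈ lev T 2)).filter (fun v => par hT r v = w)
          = ∅ := by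
        apply filter_false_of_mem
        intro v hv h
        rw [mem_filter, h] at hv
        exact hw hv.2
      rw [h1]
      simp
  · intro v hv
    rw [mem_filter]
    exact ⟨mem_univ _, lev_par' hT hr 1 (by omega) v hv⟩

/-- The base cases of the chain. -/
theorem base_plab (hT : T.IsTree) {n : ℕ}
    (hcV : Fintype.card V = 2 ^ n) {m : ℕ} {r : V} (hr : r ∈ lev T m)
    {x : ℕ} (hend : (lev T (m + 1)).card ≤ 2 ∨
      (∀ v ∈ lev T m, ((lev T m).filter (fun u => T.Adj v u)).card ≤ 2) ∨
      2 * cM n * (lev T m).card ≤ x) :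
    ∀ (E : Finset V) (i : ℕ), 1 ≤ i → EvenFib (par hT r) E → lev T m ⊆ E →
      (∀ v ∈ E, par hT r v ∈ lev T m) → E.card = 2 ^ i →
      x < 2 ^ (i + 1) → PLab (par hT r) r E (Fin i → ZMod 2) := by
  intro E i hi hEe hPE hpE hEc hlt
  have hcl : Closed (par hT r) r E := ⟨hPE hr, fun v hv => hPE (hpE v hv), fun w _ => hEe w⟩
  refine core_plab hT r hcl hEe hEc ?_
  intro T' dT' h1 h2 h3 h4
  have l1 : ∀ v : E, v ∈ lev T' 1 → (v : V) ∈ lev T m := by
    intro v hv
    rw [mem_lev_one h2] at hv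
    by_contra hcon
    have hvr : (v : V) ≠ r := by
      intro h
      rw [h] at hcon
      exact hcon hr
    apply hv
    rw [h4 v, nb_filter hT r hcl v.2 hvr]
    have : E.filter (fun b => par hT r b = (v : V)) = ∅ := by
      apply filter_false_of_mem
      intro b hb h
      exact hcon (h ▸ hpE b hb)
    rw [this]
    rfl
  have l1' : ∀ v : E, ∀ u ∈ (lev T' 1).filter (fun u => T'.Adj v u),
      (u : V) ∈ (lev T m).filter (fun u => T.Adj v u) := by
    intro v u hu
    rw [mem_filter] at hu ⊢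
    exact ⟨l1 u hu.1, (h3 v u).1 hu.2⟩
  have l2 : ∀ v : E, v ∈ lev T' 2 → (v : V) ∈ lev T (m + 1) := by
    intro v hv
    rw [show (2 : ℕ) = 1 + 1 from rfl, lev_succ] at hv
    rw [lev_succ]
    exact ⟨l1 v hv.1, hv.2.trans (card_le_sub (l1' v))⟩
  have hcE : Fintype.card E = 2 ^ i := by rw [Fintype.card_coe, hEc]
  rcases hend with h | h | h
  · exact base_two h1 h2 hcE ((card_le_sub l2).trans h)
  · exact base_path h1 h2 hcE (fun v hv => (card_le_sub (l1' v)).trans (h v (l1 v hv)))
  · refine base_few h1 h2 hcE ?_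
    have h5 : i ≤ n := by
      have h6 := card_le_univ E
      rw [hEc, hcV] at h6
      exact (Nat.pow_le_pow_iff_right (by norm_num)).1 h6
    have h7 := Nat.mul_le_mul (cM_mono h5) (card_le_sub l1)
    rw [pow_succ] at hlt
    have h8 : 2 * (cM n * (lev T m).card) ≤ x := by
      rw [← mul_assoc]
      exact h
    omega

end

end Pool.Agent.H67.TP
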