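import Mathlib
import Pool.Agent.H67.TP.ChainD

/-!
# TP/ChainF: the chain of closed sets, unified form

`A j ⊇ P j` are closed sets, `C 1` is the set of all vertices whose parent is in `P 2`, and
`C j = A j` for `j ≥ 2`.
-/

set_option autoImplicit false

open Finset

namespace Pool.Agent.H67.TP

open Pool.Agent.H57.SS

section

variable {V : Type*} [Fintype V] [DecidableEq V] {p : V → V} {r : V}

/-- The data of the chain. -/
structure Ctx (p : V → V) (r : V) (n m : ℕ) (P A C : ℕ → Finset V) : Prop where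
  hn : Fintype.card V = 2 ^ n
  A0 : A 0 = univ
  CA : ∀ j, 2 ≤ j → C j = A j
  PA : ∀ j, P j ⊆ A j
  AC : ∀ j, 1 ≤ j → A j ⊆ C j
  CA' : ∀ j, C (j + 1) ⊆ A j
  Ae : ∀ j, EvenFib p (A j)
  Ce : ∀ j, 1 ≤ j → EvenFib p (C j)
  Ac : ∀ j, (A j).card = (P j).card + (oddPar p (P j)).card
  rP : ∀ j, j ≤ m → r ∈ P j
  pA : ∀ j, j < m → ∀ v ∈ A j, p v ∈ P (j + 1)
  pC : ∀ j, 1 ≤ j → j < m → ∀ v ∈ C j, p v ∈ P (j + 1)
  two : ∀ j, j < m → ∀ u ∈ P (j + 1), 2 ≤ ((A j).filter (fun v => p v = u)).card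

/-- A labelled set which is ready for the step from level `k + 2` to level `k + 1`. -/
structure Ready (p : V → V) (r : V) (A C : ℕ → Finset V) (k i : ℕ) (E : Finset V) : Prop where
  hi : 1 ≤ i
  even : EvenFib p E
  sub : A (k + 2) ⊆ E
  le : E ⊆ C (k + 1)
  card : E.card = 2 ^ i
  lt : (C (k + 1)).card < 2 ^ (i + 1)
  lab : PLab p r E (Fin i → ZMod 2)
  count : E = univ ∨
    2 ^ (i + 1) ≤ ((A k \ C (k + 1)).filter (fun v => p v ∈ E)).card + (C (k + 1)).card

variable {n m : ℕ} {P A C : ℕ → Finset V}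

theorem Ctx.cA (h : Ctx p r n m P A C) (j : ℕ) : A (j + 1) ⊆ A j :=
  (h.AC (j + 1) (by omega)).trans (h.CA' j)

theorem Ctx.two_le (h : Ctx p r n m P A C) {j : ℕ} (hj : j ≤ m) : 2 ≤ (A j).card := by
  have h1 : 0 < (A j).card := card_pos.2 ⟨r, h.PA j (h.rP j hj)⟩
  obtain ⟨k, hk⟩ := (h.Ae j).card_even
  omega

/-- The count, when all parents are available. -/
theorem count_all (h : Ctx p r n m P A C) {k i : ℕ} (hk : k < m) {E : Finset V}
    (hAE : A (k + 1) ⊆ E) (hc : 2 ^ (i + 1) ≤ (A k).card) :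
    2 ^ (i + 1) ≤ ((A k \ C (k + 1)).filter (fun v => p v ∈ E)).card + (C (k + 1)).card := by
  have h1 : (A k \ C (k + 1)).filter (fun v => p v ∈ E) = A k \ C (k + 1) := by
    apply filter_true_of_mem
    intro v hv
    exact hAE (h.PA (k + 1) (h.pA k hk v (mem_sdiff.1 hv).1))
  rw [h1, card_sdiff_of_subset (h.CA' k)]
  omega

/-- The count at the last level. -/
theorem count_last (h : Ctx p r n m P A C) {i : ℕ} (hm : 0 < m) {E : Finset V}
    (hAE : A (0 + 1) ⊆ E) (hc : E.card = 2 ^ i) : E = univ ∨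
    2 ^ (i + 1) ≤ ((A 0 \ C (0 + 1)).filter (fun v => p v ∈ E)).card + (C (0 + 1)).card := by
  have h0 : (A 0).card = 2 ^ n := by rw [h.A0, card_univ, h.hn]
  have h1 := card_le_univ E
  rw [hc, h.hn] at h1
  have h2 : i ≤ n := (Nat.pow_le_pow_iff_right (by norm_num)).1 h1
  rcases Nat.lt_or_ge i n with h3 | h3
  · refine Or.inr (count_all h hm hAE ?_)
    rw [h0]
    exact Nat.pow_le_pow_right (by norm_num) h3
  · left
    apply (card_eq_iff_eq_univ E).1
    rw [hc, h.hn]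
    congr 1
    omega

/-- The count for a set inside `A (k + 1)`. -/
theorem count_one (h : Ctx p r n m P A C) {k i : ℕ} (hk : k + 2 ≤ m) {E : Finset V}
    (hPE : A (k + 2) ⊆ E) (hEA : E ⊆ A (k + 1)) (hc : E.card = 2 ^ i)
    (hcond : 2 * (P (k + 2)).card + 2 * (oddPar p (P (k + 1))).card ≤ (C (k + 1)).card) :
    2 ^ (i + 1) ≤ ((A k \ C (k + 1)).filter (fun v => p v ∈ E)).card + (C (k + 1)).card := by
  obtain ⟨G, hG⟩ : ∃ G : Finset V, G = E ∩ (P (k + 1) \ P (k + 2)) := ⟨_, rfl⟩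
  have h1 : E.card ≤ G.card + (P (k + 2)).card + (oddPar p (P (k + 1))).card := by
    have h3 : E ⊆ G ∪ P (k + 2) ∪ (A (k + 1) \ P (k + 1)) := by
      intro v hv
      rw [hG, mem_union, mem_union, mem_inter, mem_sdiff, mem_sdiff]
      by_cases h4 : v ∈ P (k + 1)
      · by_cases h5 : v ∈ P (k + 2)
        · exact Or.inl (Or.inr h5)
        · exact Or.inl (Or.inl ⟨hv, h4, h5⟩)
      · exact Or.inr ⟨hEA hv, h4⟩
    have h4 := (card_le_card h3).trans (card_union_le _ _)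
    have h5 := card_union_le G (P (k + 2))
    have h6 : (A (k + 1) \ P (k + 1)).card = (oddPar p (P (k + 1))).card := by
      rw [card_sdiff_of_subset (h.PA (k + 1)), h.Ac]
      omega
    omega
  obtain ⟨W, hW⟩ : ∃ W : Finset V, W = (A k \ C (k + 1)).filter (fun v => p v ∈ E) := ⟨_, rfl⟩
  have h2 : 2 * G.card ≤ W.card := by
    have h3 : 2 * G.card ≤ ((A k).filter (fun v => p v ∈ G)).card := by
      have h7 : ∀ v ∈ (A k).filter (fun v => p v ∈ G), p v ∈ G := fun v hv => (mem_filter.1 hv).2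
      rw [card_eq_sum_card_fiberwise (f := p) (t := G) h7]
      have h4 : ∑ _u ∈ G, 2 ≤ ∑ u ∈ G,
          (((A k).filter (fun v => p v ∈ G)).filter (fun v => p v = u)).card := by
        apply sum_le_sum
        intro u hu
        have h5 := h.two k (by omega) u (by
          rw [hG] at hu
          exact (mem_sdiff.1 (mem_inter.1 hu).2).1)
        refine h5.trans (card_le_card ?_)
        intro v hv
        rw [mem_filter] at hv
        rw [mem_filter, mem_filter]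
        exact ⟨⟨hv.1, hv.2 ▸ hu⟩, hv.2⟩
      rw [sum_const, smul_eq_mul] at h4
      omega
    refine h3.trans (card_le_card ?_)
    intro v hv
    rw [mem_filter] at hv
    rw [hW, mem_filter, mem_sdiff]
    rw [hG, mem_inter, mem_sdiff] at hv
    refine ⟨⟨hv.1, ?_⟩, hv.2.1⟩
    intro h4
    exact hv.2.2.2 (h.pC (k + 1) (by omega) (by omega) v h4)
  rw [← hW, pow_succ]
  omega

/-- An intermediate set of size `2^i`. -/
theorem exists_mid (h : Ctx p r n m P A C) {k i : ℕ} {E : Finset V} (hi : 1 ≤ i)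
    (hEe : EvenFib p E) (hEA : E ⊆ A (k + 1)) (hc : E.card ≤ 2 ^ i)
    (hc2 : 2 ^ i ≤ (C (k + 1)).card) : ∃ E' : Finset V, E ⊆ E' ∧ E' ⊆ C (k + 1) ∧
      EvenFib p E' ∧ E'.card = 2 ^ i ∧ (E' ⊆ A (k + 1) ∨ (k = 0 ∧ A (k + 1) ⊆ E')) := by
  have hAC := h.AC (k + 1) (by omega)
  rcases le_or_gt (2 ^ i) (A (k + 1)).card with h7 | h7
  · obtain ⟨E', e1, e2, e3, e4⟩ := exists_between hEe (h.Ae (k + 1)) hEA hi hc h7
    exact ⟨E', e1, e2.trans hAC, e3, e4, Or.inl e2⟩
  · obtain ⟨E', e1, e2, e3, e4⟩ := exists_between (h.Ae (k + 1)) (h.Ce (k + 1) (by omega)) hAC hi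
      h7.le hc2
    refine ⟨E', hEA.trans e1, e2, e3, e4, Or.inr ⟨?_, e1⟩⟩
    by_contra hk
    rw [h.CA (k + 1) (by omega)] at hc2
    omega

/-- The step from level `k + 3` to level `k + 2`. -/
theorem cross_step (h : Ctx p r n m P A C) {k i : ℕ} (hk : k + 1 + 2 ≤ m) {E : Finset V}
    (hR : Ready p r A C (k + 1) i E)
    (hcond : 2 * (P (k + 2)).card + 2 * (oddPar p (P (k + 1))).card ≤ (C (k + 1)).card) :
    (∃ (i' : ℕ) (E' : Finset V), Ready p r A C k i' E') ∨ PLab p r univ (Fin n → ZMod 2) := by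
  obtain ⟨hi, hEe, hAE, hEC, hEc, hlt, hlab, hcount⟩ := hR
  have hPE : P (k + 3) ⊆ E := (h.PA (k + 3)).trans hAE
  have hrE : r ∈ E := hPE (h.rP (k + 3) (by omega))
  have hpC : ∀ v ∈ C (k + 1 + 1), p v ∈ E := fun v hv =>
    hPE (h.pC (k + 1 + 1) (by omega) (by omega) v hv)
  rcases hcount with hu | hcount
  · right
    have h1 : i = n := by
      rw [hu, card_univ, h.hn] at hEc
      exact (Nat.pow_right_injective le_rfl hEc).symm
    rw [← hu, ← h1]
    exact hlab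
  left
  obtain ⟨W, hW⟩ : ∃ W : Finset V, W = (A (k + 1) \ C (k + 1 + 1)).filter (fun v => p v ∈ E) :=
    ⟨_, rfl⟩
  rw [← hW] at hcount
  have mW : ∀ v, v ∈ W ↔ v ∈ A (k + 1) \ C (k + 1 + 1) ∧ p v ∈ E := by
    intro v
    rw [hW, mem_filter]
  have hWe : EvenFib p W := by
    intro u
    by_cases hu : u ∈ E
    · have h1 : W.filter (fun v => p v = u) =
          (A (k + 1) \ C (k + 1 + 1)).filter (fun v => p v = u) := by
        ext v
        rw [mem_filter, mem_filter, mW]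
        exact ⟨fun h => ⟨h.1.1, h.2⟩, fun h => ⟨⟨h.1, h.2 ▸ hu⟩, h.2⟩⟩
      rw [h1]
      exact (h.Ae (k + 1)).sdiff (h.Ce (k + 1 + 1) (by omega)) (h.CA' (k + 1)) u
    · have h1 : W.filter (fun v => p v = u) = ∅ := by
        apply filter_false_of_mem
        intro v hv h
        exact hu (h ▸ ((mW v).1 hv).2)
      rw [h1]
      simp
  have hBW : Disjoint (C (k + 1 + 1)) W := by
    rw [Finset.disjoint_left]
    intro v h1 h2
    exact (mem_sdiff.1 ((mW v).1 h2).1).2 h1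
  obtain ⟨E', e1, e2, e3, e4, e5⟩ := cross' (B := C (k + 1 + 1)) (X := A (k + 1)) (W := W) hi hrE
    (fun v hv => hpC v (hEC hv)) hEe hEc hlab (h.Ce (k + 1 + 1) (by omega)) hEC
    (h.CA' (k + 1)) hpC hWe (fun v hv => (mem_sdiff.1 ((mW v).1 hv).1).1) hBW
    (fun v hv => ((mW v).1 hv).2) hlt.le (by omega)
  have hAC := h.AC (k + 1) (by omega)
  have h6 := card_le_card (e2.trans hAC)
  have h6' : 2 ≤ E'.card := by
    rw [e4, pow_succ]
    have := Nat.one_le_two_pow (n := i)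
    omega
  obtain ⟨i', hi1, hi2, hi3⟩ := exists_log (a := (C (k + 1)).card) (by omega)
  have hii : i + 1 ≤ i' := by
    by_contra hcon
    have h7 : 2 ^ (i' + 1) ≤ 2 ^ (i + 1) := Nat.pow_le_pow_right (by norm_num) (by omega)
    rw [e4] at h6
    omega
  obtain ⟨E2, f1, f2, f3, f4, f5⟩ := exists_mid h (k := k) hi1 e3 e2
    (by rw [e4]; exact Nat.pow_le_pow_right (by norm_num) hii) hi2
  have hAE' : A (k + 2) ⊆ E' := (h.AC (k + 2) (by omega)).trans e1
  have hPE' : P (k + 2) ⊆ E' := (h.PA (k + 2)).trans hAE'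
  have hpE2 : ∀ v ∈ C (k + 1), p v ∈ E' := fun v hv =>
    hPE' (h.pC (k + 1) (by omega) (by omega) v hv)
  refine ⟨i', E2, hi1, f3, hAE'.trans f1, f2, f4, hi3, ?_, ?_⟩
  · exact ext_plab (by omega) (hPE' (h.rP (k + 2) (by omega)))
      (fun v hv => hpE2 v (hAC (e2 hv))) e3 e4 e5
      f1 f3 f4 (fun v hv => hpE2 v (f2 hv))
  · rcases f5 with f5 | ⟨rfl, f5⟩
    · exact Or.inr (count_one h (by omega) (hAE'.trans f1) f5 f4 hcond)
    · exact count_last h (by omega) f5 f4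

/-- The end of the chain. -/
theorem end_step (h : Ctx p r n m P A C) {i : ℕ} (hm : 2 ≤ m) {E : Finset V}
    (hR : Ready p r A C 0 i E) : PLab p r univ (Fin n → ZMod 2) := by
  obtain ⟨hi, hEe, hAE, hEC, hEc, hlt, hlab, hcount⟩ := hR
  have hPE : P 2 ⊆ E := (h.PA 2).trans hAE
  have hrE : r ∈ E := hPE (h.rP 2 hm)
  have hpC : ∀ v ∈ C (0 + 1), p v ∈ E := fun v hv => hPE (h.pC (0 + 1) (by omega) (by omega) v hv)
  rcases hcount with hu | hcount
  · have h1 : i = n := by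
      rw [hu, card_univ, h.hn] at hEc
      exact (Nat.pow_right_injective le_rfl hEc).symm
    rw [← hu, ← h1]
    exact hlab
  obtain ⟨W, hW⟩ : ∃ W : Finset V, W = (A 0 \ C (0 + 1)).filter (fun v => p v ∈ E) := ⟨_, rfl⟩
  rw [← hW] at hcount
  have mW : ∀ v, v ∈ W ↔ v ∈ A 0 \ C (0 + 1) ∧ p v ∈ E := by
    intro v
    rw [hW, mem_filter]
  have hWe : EvenFib p W := by
    intro u
    by_cases hu : u ∈ E
    · have h1 : W.filter (fun v => p v = u) = (A 0 \ C (0 + 1)).filter (fun v => p v = u) := by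
        ext v
        rw [mem_filter, mem_filter, mW]
        exact ⟨fun h => ⟨h.1.1, h.2⟩, fun h => ⟨⟨h.1, h.2 ▸ hu⟩, h.2⟩⟩
      rw [h1]
      exact (h.Ae 0).sdiff (h.Ce (0 + 1) (by omega)) (h.CA' 0) u
    · have h1 : W.filter (fun v => p v = u) = ∅ := by
        apply filter_false_of_mem
        intro v hv h
        exact hu (h ▸ ((mW v).1 hv).2)
      rw [h1]
      simp
  have hBW : Disjoint (C (0 + 1)) W := by
    rw [Finset.disjoint_left]
    intro v h1 h2
    exact (mem_sdiff.1 ((mW v).1 h2).1).2 h1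
  obtain ⟨E', e1, e2, e3, e4, e5⟩ := cross' (B := C (0 + 1)) (X := A 0) (W := W) hi hrE
    (fun v hv => hpC v (hEC hv)) hEe hEc hlab (h.Ce (0 + 1) (by omega)) hEC
    (h.CA' 0) hpC hWe (fun v hv => (mem_sdiff.1 ((mW v).1 hv).1).1) hBW
    (fun v hv => ((mW v).1 hv).2) hlt.le (by omega)
  have hP1E : P 1 ⊆ E' := (h.PA 1).trans ((h.AC 1 (by omega)).trans e1)
  have hpuniv : ∀ v, p v ∈ P 1 := by
    intro v
    exact h.pA 0 (by omega) v (by rw [h.A0]; exact mem_univ _)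
  have hev : EvenFib p (univ : Finset V) := by
    rw [← h.A0]
    exact h.Ae 0
  exact ext_plab (by omega) (hP1E (h.rP 1 (by omega))) (fun v _ => hP1E (hpuniv v)) e3 e4 e5
    (subset_univ _) hev (by rw [card_univ, h.hn]) (fun v _ => hP1E (hpuniv v))

end

end Pool.Agent.H67.TP
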