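import Mathlib
import Pool.Agent.H67.TP.ChainF

/-!
# TP/ChainG: the first set of the chain, and the unified theorem
-/

set_option autoImplicit false

open Finset

namespace Pool.Agent.H67.TP

open Pool.Agent.H57.SS

section

variable {V : Type*} [Fintype V] [DecidableEq V] {p : V → V} {r : V}
  {n m : ℕ} {P A C : ℕ → Finset V}

/-- The first set, any choice. -/
theorem base_any (h : Ctx p r n m P A C) {k : ℕ} (hk : m = k + 2)
    (hbase : ∀ (E : Finset V) (i : ℕ), 1 ≤ i → EvenFib p E → P (k + 2) ⊆ E →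
      (∀ v ∈ E, p v ∈ P (k + 2)) → E.card = 2 ^ i → (C (k + 1)).card < 2 ^ (i + 1) →
      PLab p r E (Fin i → ZMod 2))
    (h1 : 2 * ((P (k + 2)).card + (oddPar p (P (k + 2))).card) ≤ (C (k + 1)).card)
    (hcond : 2 * (P (k + 2)).card + 2 * (oddPar p (P (k + 1))).card ≤ (C (k + 1)).card) :
    ∃ (i : ℕ) (E : Finset V), Ready p r A C k i E := by
  have h2 := h.two_le (j := k + 2) (by omega)
  rw [← h.Ac] at h1
  obtain ⟨i, hi1, hi2, hi3⟩ := exists_log (a := (C (k + 1)).card) (by omega)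
  obtain ⟨E, e1, e2, e3, e4, e5⟩ := exists_mid h (k := k) hi1 (h.Ae (k + 2)) (h.cA (k + 1))
    (by rw [pow_succ] at hi3; omega) hi2
  refine ⟨i, E, hi1, e3, e1, e2, e4, hi3, ?_, ?_⟩
  · refine hbase E i hi1 e3 ((h.PA (k + 2)).trans e1)
      (fun v hv => h.pC (k + 1) (by omega) (by omega) v (e2 hv)) e4 hi3
  · rcases e5 with e5 | ⟨rfl, e5⟩
    · exact Or.inr (count_one h (by omega) e1 e5 e4 hcond)
    · exact count_last h (by omega) e5 e4

/-- The first set, heavy choice. -/
theorem base_heavy (h : Ctx p r n m P A C) {k : ℕ} (hk : m = k + 2)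
    (hbase : ∀ (E : Finset V) (i : ℕ), 1 ≤ i → EvenFib p E → P (k + 2) ⊆ E →
      (∀ v ∈ E, p v ∈ P (k + 2)) → E.card = 2 ^ i → (C (k + 1)).card < 2 ^ (i + 1) →
      PLab p r E (Fin i → ZMod 2))
    (h1 : 2 * ((P (k + 2)).card + (oddPar p (P (k + 2))).card) ≤ (C (k + 1)).card)
    (hcond : 2 * ((P (k + 1)).card + (oddPar p (P (k + 1))).card) ≤ (A k).card) :
    ∃ (i : ℕ) (E : Finset V), Ready p r A C k i E := by
  have h2 := h.two_le (j := k + 2) (by omega)
  rw [← h.Ac] at h1 hcond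
  obtain ⟨i, hi1, hi2, hi3⟩ := exists_log (a := (C (k + 1)).card) (by omega)
  have hAC := h.AC (k + 1) (by omega)
  have hbase' : ∀ E : Finset V, EvenFib p E → A (k + 2) ⊆ E → E ⊆ C (k + 1) → E.card = 2 ^ i →
      PLab p r E (Fin i → ZMod 2) := by
    intro E h1 h2 h3 h4
    exact hbase E i hi1 h1 ((h.PA (k + 2)).trans h2)
      (fun v hv => h.pC (k + 1) (by omega) (by omega) v (h3 hv)) h4 hi3
  have hCA := card_le_card (h.CA' k)
  rcases le_or_gt (A (k + 1)).card (2 ^ i) with h7 | h7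
  · obtain ⟨E, e1, e2, e3, e4⟩ := exists_between (h.Ae (k + 1)) (h.Ce (k + 1) (by omega)) hAC hi1
      h7 hi2
    refine ⟨i, E, hi1, e3, (h.cA (k + 1)).trans e1, e2, e4, hi3,
      hbase' E e3 ((h.cA (k + 1)).trans e1) e2 e4, ?_⟩
    rcases Nat.eq_zero_or_pos k with hk0 | hk0
    · subst hk0
      exact count_last h (by omega) e1 e4
    · refine Or.inr (count_all h (by omega) e1 ?_)
      rw [h.CA (k + 1) (by omega)] at hi2
      rw [pow_succ]
      omega
  · obtain ⟨w, hw⟩ : ∃ w : V → ℕ,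
        ∀ u, w u = ((A k \ C (k + 1)).filter (fun v => p v = u)).card := ⟨_, fun _ => rfl⟩
    have hA21 : A (k + 2) ⊆ A (k + 1) := h.cA (k + 1)
    have hZe : EvenFib p (A (k + 1) \ A (k + 2)) := (h.Ae (k + 1)).sdiff (h.Ae (k + 2)) hA21
    obtain ⟨a1, ha1⟩ := (h.Ae (k + 1)).card_even
    obtain ⟨a2, ha2⟩ := (h.Ae (k + 2)).card_even
    obtain ⟨N', hN'⟩ : ∃ N', 2 ^ i = 2 * N' := ⟨2 ^ (i - 1), by
      rw [← pow_succ']
      congr 1
      omega⟩
    have hi3' := hi3
    rw [pow_succ] at hi3'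
    have hZc : (A (k + 1) \ A (k + 2)).card = 2 * ((N' - a2) + (a1 - N')) := by
      rw [card_sdiff_of_subset hA21]
      omega
    obtain ⟨Z', hZ'Z, hZ'e, hZ'c, hheavy⟩ := exists_heavy w (N' - a2) (a1 - N') _ hZe hZc
    have hdAZ : Disjoint (A (k + 2)) Z' := by
      rw [Finset.disjoint_left]
      intro v h1 h2
      exact (mem_sdiff.1 (hZ'Z h2)).2 h1
    obtain ⟨E, hE⟩ : ∃ E : Finset V, E = A (k + 2) ∪ Z' := ⟨_, rfl⟩
    have hAE : A (k + 2) ⊆ E := by rw [hE]; exact subset_union_left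
    have hEA : E ⊆ A (k + 1) := by
      rw [hE]
      exact union_subset hA21 (hZ'Z.trans sdiff_subset)
    have hEe : EvenFib p E := by rw [hE]; exact (h.Ae (k + 2)).union hZ'e hdAZ
    have hEc : E.card = 2 ^ i := by
      rw [hE, card_union_of_disjoint hdAZ, hZ'c]
      omega
    have hlab := hbase' E hEe hAE (hEA.trans hAC) hEc
    refine ⟨i, E, hi1, hEe, hAE, hEA.trans hAC, hEc, hi3, hlab, Or.inr ?_⟩
    obtain ⟨W, hW⟩ : ∃ W : Finset V, W = (A k \ C (k + 1)).filter (fun v => p v ∈ E) := ⟨_, rfl⟩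
    rw [← hW]
    have mW : ∀ v, v ∈ W ↔ v ∈ A k \ C (k + 1) ∧ p v ∈ E := by
      intro v
      rw [hW, mem_filter]
    have hWf : ∀ u ∈ E, W.filter (fun v => p v = u) =
        (A k \ C (k + 1)).filter (fun v => p v = u) := by
      intro u hu
      ext v
      rw [mem_filter, mem_filter, mW]
      exact ⟨fun h => ⟨h.1.1, h.2⟩, fun h => ⟨⟨h.1, h.2 ▸ hu⟩, h.2⟩⟩
    have hWc : W.card = ∑ u ∈ E, w u := by
      rw [card_eq_sum_card_fiberwise (f := p) (t := E) (fun v hv => ((mW v).1 hv).2)]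
      exact sum_congr rfl (fun u hu => by rw [hWf u hu, hw])
    have htot : ∑ u ∈ A (k + 1), w u = (A k).card - (C (k + 1)).card := by
      have h8 : ∀ v ∈ A k \ C (k + 1), p v ∈ A (k + 1) := fun v hv =>
        h.PA (k + 1) (h.pA k (by omega) v (mem_sdiff.1 hv).1)
      rw [← card_sdiff_of_subset (h.CA' k),
        card_eq_sum_card_fiberwise (f := p) (t := A (k + 1)) h8]
      exact sum_congr rfl (fun u _ => hw u)
    have hsplit : ∑ u ∈ A (k + 1) \ A (k + 2), w u + ∑ u ∈ A (k + 2), w u =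
        ∑ u ∈ A (k + 1), w u := sum_sdiff hA21
    have hsplit2 : ∑ u ∈ E, w u = ∑ u ∈ A (k + 2), w u + ∑ u ∈ Z', w u := by
      rw [hE, sum_union hdAZ]
    have h8 := cross_arith (x := (A k).card) (y := (A (k + 1)).card) (a := (A (k + 2)).card)
      (N := 2 ^ i) (ν := (C (k + 1)).card) hcond h1 h7.le (by omega) (by omega) hCA
    rw [hWc, hsplit2]
    obtain ⟨s0, hs0⟩ : ∃ s, s = ∑ u ∈ A (k + 2), w u := ⟨_, rfl⟩
    obtain ⟨s1, hs1⟩ : ∃ s, s = ∑ u ∈ A (k + 1) \ A (k + 2), w u := ⟨_, rfl⟩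
    obtain ⟨s2, hs2⟩ : ∃ s, s = ∑ u ∈ Z', w u := ⟨_, rfl⟩
    rw [← hs0, ← hs1, htot] at hsplit
    rw [← hs1, ← hs2] at hheavy
    rw [← hs0, ← hs2]
    rw [← hsplit] at h8
    obtain ⟨b, hb⟩ : ∃ b, b = N' - a2 := ⟨_, rfl⟩
    obtain ⟨d, hd⟩ : ∃ d, d = N' - a2 + (a1 - N') := ⟨_, rfl⟩
    have e1 : 2 ^ i - (A (k + 2)).card = 2 * b := by omega
    have e2 : (A (k + 1)).card - (A (k + 2)).card = 2 * d := by omega
    rw [e1, e2] at h8
    rw [← hd, ← hb] at hheavy
    have hbd : b ≤ d := by omega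
    have hd0 : 0 < d := by omega
    have h9 : (2 * 2 ^ i - (C (k + 1)).card) * d ≤ (s1 + s0) * b := by
      have : 2 * ((2 * 2 ^ i - (C (k + 1)).card) * d) ≤ 2 * ((s1 + s0) * b) := by
        calc 2 * ((2 * 2 ^ i - (C (k + 1)).card) * d)
            = (2 * 2 ^ i - (C (k + 1)).card) * (2 * d) := by ring
          _ ≤ (s1 + s0) * (2 * b) := h8
          _ = 2 * ((s1 + s0) * b) := by ring
      omega
    have h10 : (s1 + s0) * b ≤ (s0 + s2) * d := by
      calc (s1 + s0) * b = s1 * b + s0 * b := by ring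
        _ ≤ s2 * d + s0 * d := Nat.add_le_add hheavy (Nat.mul_le_mul_left _ hbd)
        _ = (s0 + s2) * d := by ring
    have h11 := Nat.le_of_mul_le_mul_right (h9.trans h10) hd0
    rw [pow_succ]
    omega

/-- The chain. -/
theorem chain_down (h : Ctx p r n m P A C) (hm : 2 ≤ m) (k : ℕ) : k + 2 ≤ m →
    (∀ j, 2 ≤ j → j < k + 2 →
      2 * (P j).card + 2 * (oddPar p (P (j - 1))).card ≤ (C (j - 1)).card) →
    (∃ (i : ℕ) (E : Finset V), Ready p r A C k i E) → PLab p r univ (Fin n → ZMod 2) := by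
  induction k with
  | zero =>
    rintro - - ⟨i, E, hR⟩
    exact end_step h hm hR
  | succ k ih =>
    rintro hk hcond ⟨i, E, hR⟩
    rcases cross_step h hk hR (by
      have := hcond (k + 2) (by omega) (by omega)
      rw [show k + 2 - 1 = k + 1 from rfl] at this
      exact this) with h1 | h1
    · exact ih (by omega) (fun j h2 h3 => hcond j h2 (by omega)) h1
    · exact h1

theorem chain_gen (hev : EvenFib p (univ : Finset V)) (hn : Fintype.card V = 2 ^ n)
    (P : ℕ → Finset V) {k : ℕ} (hP0 : P 0 = univ) (hanti : ∀ j, P (j + 1) ⊆ P j)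
    (hr : r ∈ P (k + 2)) (hpP : ∀ j, j < k + 2 → ∀ v ∈ P j, p v ∈ P (j + 1))
    (hch : ∀ j, j < k + 2 → ∀ u ∈ P (j + 1), ∃ v ∈ P j, p v = u)
    (hD : ∀ j, 2 ≤ j → j < k + 2 → 2 * (P j).card + 2 * (oddPar p (P (j - 1))).card ≤
      if j = 2 then (univ.filter (fun v => p v ∈ P 2)).card else
        (P (j - 1)).card + (oddPar p (P (j - 1))).card)
    (hD1 : 2 * ((P (k + 2)).card + (oddPar p (P (k + 2))).card) ≤
      if k = 0 then (univ.filter (fun v => p v ∈ P 2)).card else
        (P (k + 1)).card + (oddPar p (P (k + 1))).card)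
    (hD2 : 2 * (P (k + 2)).card + 2 * (oddPar p (P (k + 1))).card ≤
        (if k = 0 then (univ.filter (fun v => p v ∈ P 2)).card else
        (P (k + 1)).card + (oddPar p (P (k + 1))).card) ∨
      2 * ((P (k + 1)).card + (oddPar p (P (k + 1))).card) ≤
        (P k).card + (oddPar p (P k)).card)
    (hbase : ∀ (E : Finset V) (i : ℕ), 1 ≤ i → EvenFib p E → P (k + 2) ⊆ E →
      (∀ v ∈ E, p v ∈ P (k + 2)) → E.card = 2 ^ i →
      (if k = 0 then (univ.filter (fun v => p v ∈ P 2)).card else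
        (P (k + 1)).card + (oddPar p (P (k + 1))).card) < 2 ^ (i + 1) →
      PLab p r E (Fin i → ZMod 2)) :
    PLab p r univ (Fin n → ZMod 2) := by
  obtain ⟨A, hPA, hAA, hAe, hAc, hAp⟩ := exists_closures hev P hP0 hanti
  have hPm : ∀ j, j ≤ k + 2 → P (k + 2) ⊆ P j := by
    intro j hj
    have : ∀ l, P (j + l) ⊆ P j := by
      intro l
      induction l with
      | zero => exact Subset.rfl
      | succ l ih => exact (hanti (j + l)).trans ih
    have h1 := this (k + 2 - j)
    rwa [show j + (k + 2 - j) = k + 2 by omega] at h1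
  have hpodd : ∀ j, ∀ w ∈ oddPar p (P j), ∃ v ∈ P j, p v = w := by
    intro j w hw
    rw [mem_oddPar] at hw
    obtain ⟨v, hv⟩ := card_pos.1 hw.pos
    rw [mem_filter] at hv
    exact ⟨v, hv.1, hv.2⟩
  have hpA : ∀ j, j < k + 2 → ∀ v ∈ A j, p v ∈ P (j + 1) := by
    intro j hj v hv
    by_cases h : v ∈ P j
    · exact hpP j hj v h
    · obtain ⟨w, hw, hpw⟩ := hpodd j _ (hAp j v hv h)
      rw [← hpw]
      exact hpP j hj w hw
  obtain ⟨D, hDd⟩ : ∃ D : Finset V, D = univ.filter (fun v => p v ∈ P 2) := ⟨_, rfl⟩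
  rw [← hDd] at hD1 hD2
  simp only [← hDd] at hD hbase
  have mD : ∀ v, v ∈ D ↔ p v ∈ P 2 := by
    intro v
    rw [hDd, mem_filter]
    exact ⟨fun h => h.2, fun h => ⟨mem_univ _, h⟩⟩
  have hDe : EvenFib p D := by
    intro w
    by_cases hw : w ∈ P 2
    · have h1 : D.filter (fun v => p v = w) = univ.filter (fun v => p v = w) := by
        ext v
        rw [mem_filter, mem_filter, mD]
        exact ⟨fun h => ⟨mem_univ _, h.2⟩, fun h => ⟨h.2 ▸ hw, h.2⟩⟩
      rw [h1]
      exact hev w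
    · have h1 : D.filter (fun v => p v = w) = ∅ := by
        apply filter_false_of_mem
        intro v hv h
        rw [mD, h] at hv
        exact hw hv
      rw [h1]
      simp
  have hA0 : A 0 = univ := by
    apply univ_subset_iff.1
    have := hPA 0
    rwa [hP0] at this
  obtain ⟨C, hC⟩ : ∃ C : ℕ → Finset V, C = fun j => if j = 1 then D else A j := ⟨_, rfl⟩
  have hC1 : C 1 = D := by rw [hC]; exact if_pos rfl
  have hCj : ∀ j, j ≠ 1 → C j = A j := by
    intro j hj
    rw [hC]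
    exact if_neg hj
  have hctx : Ctx p r n (k + 2) P A C := by
    constructor
    · exact hn
    · exact hA0
    · exact fun j hj => hCj j (by omega)
    · exact hPA
    · intro j hj
      by_cases h1 : j = 1
      · subst h1
        rw [hC1]
        exact fun v hv => (mD v).2 (hpA 1 (by omega) v hv)
      · rw [hCj j h1]
    · intro j
      by_cases h1 : j = 0
      · subst h1
        rw [hA0]
        exact subset_univ _
      · rw [hCj (j + 1) (by omega)]
        exact hAA j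
    · exact hAe
    · intro j hj
      by_cases h1 : j = 1
      · subst h1
        rw [hC1]
        exact hDe
      · rw [hCj j h1]
        exact hAe j
    · exact hAc
    · exact fun j hj => hPm j hj hr
    · exact hpA
    · intro j h1 h2 v hv
      by_cases h3 : j = 1
      · subst h3
        rw [hC1] at hv
        exact (mD v).1 hv
      · rw [hCj j h3] at hv
        exact hpA j h2 v hv
    · intro j hj u hu
      obtain ⟨v, hv, hpv⟩ := hch j hj u hu
      have h1 : 0 < ((A j).filter (fun v => p v = u)).card :=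
        card_pos.2 ⟨v, mem_filter.2 ⟨hPA j hv, hpv⟩⟩
      obtain ⟨l, hl⟩ := hAe j u
      omega
  have hCc : ∀ j, 1 ≤ j → (C j).card = if j = 1 then D.card else
      (P j).card + (oddPar p (P j)).card := by
    intro j hj
    split_ifs with h1
    · rw [h1, hC1]
    · rw [hCj j h1, hAc]
  have hCk : (C (k + 1)).card = if k = 0 then D.card else
      (P (k + 1)).card + (oddPar p (P (k + 1))).card := by
    rw [hCc (k + 1) (by omega)]
    simp
  rw [← hCk] at hD1 hD2 hbase
  rw [← hAc k] at hD2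
  refine chain_down hctx (by omega) k le_rfl ?_ ?_
  · intro j h1 h2
    have h3 := hD j h1 h2
    rw [hCc (j - 1) (by omega)]
    have h4 : (j = 2) ↔ (j - 1 = 1) := by omega
    simp only [h4] at h3
    exact h3
  · rcases hD2 with h1 | h1
    · exact base_any hctx rfl hbase hD1 h1
    · exact base_heavy hctx rfl hbase hD1 h1

end

end Pool.Agent.H67.TP
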