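import Mathlib
import Pool.Agent.H67.TP.ChainE
import Pool.Agent.H67.TP.ChainG

/-!
# TP/ChainH: the unified theorem for odd trees
-/

set_option autoImplicit false

open Finset

namespace Pool.Agent.H67.TP

open Pool.Agent.H57.SS Pool.Agent.H60.FN

universe u

section

variable {V : Type u} [Fintype V] [DecidableEq V] {T : SimpleGraph V} [DecidableRel T.Adj]

/-- The number of the vertices of the closure of `P j`, respectively of the closed neighbourhood of
`P 2` for `j = 1`. -/
def cc {V : Type u} [Fintype V] [DecidableEq V] (T : SimpleGraph V) [DecidableRel T.Adj]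
    (j : ℕ) : ℕ :=
  if j = 1 then (nbhd T (lev T 2)).card else (lev T j).card + (evenDeg T (lev T j)).card

/-- If nothing is left after one more pruning, there is at most one vertex of even degree. -/
theorem even_le_one (hT : T.IsTree) {j : ℕ} (h : lev T (j + 1) = ∅) :
    (evenDeg T (lev T j)).card ≤ 1 := by
  by_cases hne : (lev T j).Nonempty
  · obtain ⟨r, hr⟩ := hne
    have h1 : evenDeg T (lev T j) ⊆ {r} := by
      intro w hw
      rw [mem_singleton]
      by_contra hwr
      rw [evenDeg, mem_filter] at hw
      have h2 := nb_gen hT r (lev_par hT hr j le_rfl) hw.1 hwr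
      have h3 : w ∈ lev T (j + 1) := by
        rw [lev_succ]
        refine ⟨hw.1, ?_⟩
        obtain ⟨l, hl⟩ := hw.2
        omega
      rw [h] at h3
      exact notMem_empty w h3
    exact (card_le_card h1).trans (by rw [card_singleton])
  · rw [not_nonempty_iff_eq_empty] at hne
    rw [evenDeg, hne, filter_empty, card_empty]
    omega

/-- The inequality which holds for every odd tree. -/
theorem cc_le (hT : T.IsTree) (hodd : ∀ v, Odd (T.degree v)) {j : ℕ}
    (hne : (lev T (j + 1)).Nonempty) : 2 * (lev T (j + 1)).card + 2 ≤ cc T j := by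
  have h1 := lev_card hT hodd hne
  rw [cc]
  split_ifs with h2
  · subst h2
    have h3 := lev_le_nbhd hT hodd hne
    omega
  · exact h1

theorem graceful_gen (hT : T.IsTree) (hodd : ∀ v, Odd (T.degree v)) {n : ℕ}
    (hcV : Fintype.card V = 2 ^ n) {m : ℕ}
    (hD : ∀ j, 2 ≤ j → j < m → (evenDeg T (lev T (j - 1))).card ≤ 1 ∨
      2 * (lev T j).card + 2 * (evenDeg T (lev T (j - 1))).card ≤ cc T (j - 1))
    (hD1 : 2 ≤ m → (evenDeg T (lev T m)).card ≤ 1 ∨
      2 * ((lev T m).card + (evenDeg T (lev T m)).card) ≤ cc T (m - 1))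
    (hD2 : 2 ≤ m → (evenDeg T (lev T (m - 1))).card ≤ 1 ∨
      2 * (lev T m).card + 2 * (evenDeg T (lev T (m - 1))).card ≤ cc T (m - 1) ∨
      2 * ((lev T (m - 1)).card + (evenDeg T (lev T (m - 1))).card) ≤
        (lev T (m - 2)).card + (evenDeg T (lev T (m - 2))).card)
    (hend : (lev T (m + 1)).card ≤ 2 ∨
      (∀ v ∈ lev T m, ((lev T m).filter (fun u => T.Adj v u)).card ≤ 2) ∨
      2 * cM n * (lev T m).card ≤ cc T (m - 1)) (hm : 1 ≤ m) :
    ∃ g : V → (Fin n → ZMod 2), Function.Bijective g ∧
      ∀ a b c d : V, T.Adj a b → T.Adj c d → g a + g b = g c + g d → s(a, b) = s(c, d) := by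
  by_cases hne2 : (lev T 2).Nonempty
  swap
  · rw [not_nonempty_iff_eq_empty] at hne2
    exact base_two hT hodd hcV (by rw [hne2, card_empty]; omega)
  have key : ∀ k, k + 2 ≤ m →
      ((evenDeg T (lev T (k + 2))).card ≤ 1 ∨
        2 * ((lev T (k + 2)).card + (evenDeg T (lev T (k + 2))).card) ≤ cc T (k + 1)) →
      ((evenDeg T (lev T (k + 1))).card ≤ 1 ∨
        2 * (lev T (k + 2)).card + 2 * (evenDeg T (lev T (k + 1))).card ≤ cc T (k + 1) ∨
        2 * ((lev T (k + 1)).card + (evenDeg T (lev T (k + 1))).card) ≤
          (lev T k).card + (evenDeg T (lev T k)).card) →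
      ((lev T (k + 2 + 1)).card ≤ 2 ∨
        (∀ v ∈ lev T (k + 2), ((lev T (k + 2)).filter (fun u => T.Adj v u)).card ≤ 2) ∨
        2 * cM n * (lev T (k + 2)).card ≤ cc T (k + 1)) →
      ∃ g : V → (Fin n → ZMod 2), Function.Bijective g ∧
        ∀ a b c d : V, T.Adj a b → T.Adj c d → g a + g b = g c + g d → s(a, b) = s(c, d) := by
    intro k
    induction k with
    | zero =>
      intro hk g1 g2 hend
      obtain ⟨r, hr⟩ := id hne2
      have hrj : ∀ j, j ≤ 2 → r ∈ lev T j := fun j hj => lev_le hj hr
      have hodp : ∀ j, j ≤ 2 → oddPar (par hT r) (lev T j) = evenDeg T (lev T j) :=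
        fun j hj => oddPar_eq hT (hrj j hj) (lev_par hT hr j hj)
      have h5 := cc_le hT hodd (j := 1) hne2
      rw [cc, if_pos rfl, show (1 + 1 : ℕ) = 2 from rfl] at h5
      simp only [zero_add] at g1 g2
      rw [cc, if_pos rfl] at g1 g2
      simp only [zero_add] at hend
      rw [cc, if_pos rfl] at hend
      have hb := base_plab hT hcV hr hend
      refine exists_graceful hT r hcV (chain_gen (k := 0) (evenFib_univ hT hodd r) hcV (lev T) rfl
        lev_anti1 hr (fun j hj => lev_par' hT hr j (by omega))
        (fun j hj => exists_child_lev hT (hrj j (by omega))) ?_ ?_ ?_ ?_)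
      · intro j h1 h2
        omega
      · rw [if_pos rfl, zero_add, hodp 2 le_rfl, nbhd_eq hT hr (lev_par hT hr 2 le_rfl)]
        omega
      · rw [if_pos rfl, zero_add, zero_add, hodp 1 (by omega), hodp 0 (by omega),
          nbhd_eq hT hr (lev_par hT hr 2 le_rfl)]
        omega
      · rw [if_pos rfl, zero_add, nbhd_eq hT hr (lev_par hT hr 2 le_rfl)]
        exact hb
    | succ k ih =>
      intro hk g1 g2 hend
      by_cases hne : (lev T (k + 1 + 2)).Nonempty
      · obtain ⟨r, hr⟩ := id hne
        have hrj : ∀ j, j ≤ k + 1 + 2 → r ∈ lev T j := fun j hj => lev_le hj hr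
        have hodp : ∀ j, j ≤ k + 1 + 2 → oddPar (par hT r) (lev T j) = evenDeg T (lev T j) :=
          fun j hj => oddPar_eq hT (hrj j hj) (lev_par hT hr j hj)
        have h5 := cc_le hT hodd (j := k + 1 + 1) hne
        rw [cc, if_neg (by omega)] at h5 g1 g2 hend
        have hb := base_plab hT hcV hr hend
        rw [show k + 1 + 1 + 1 = k + 1 + 2 from rfl] at h5
        refine exists_graceful hT r hcV (chain_gen (k := k + 1) (evenFib_univ hT hodd r) hcV
          (lev T) rfl lev_anti1 hr (fun j hj => lev_par' hT hr j hj)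
          (fun j hj => exists_child_lev hT (hrj j (by omega))) ?_ ?_ ?_ ?_)
        · intro j h1 h2
          have h6 := hD j h1 (by omega)
          obtain ⟨l, rfl⟩ : ∃ l, j = l + 1 := ⟨j - 1, by omega⟩
          have hnel : (lev T (l + 1)).Nonempty := ⟨r, hrj _ (by omega)⟩
          have h7 := cc_le hT hodd hnel
          rw [show l + 1 - 1 = l from rfl] at h6 ⊢
          have h8 : cc T l = if l + 1 = 2 then
              (univ.filter (fun v => par hT r v ∈ lev T 2)).card else
              (lev T l).card + (oddPar (par hT r) (lev T l)).card := by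
            rw [cc, hodp l (by omega), nbhd_eq hT (hrj 2 (by omega)) (lev_par hT hr 2 (by omega))]
            have h9 : (l = 1) ↔ (l + 1 = 2) := by omega
            simp only [h9]
          rw [← h8, hodp l (by omega)]
          omega
        · rw [if_neg (by omega), hodp _ le_rfl, hodp (k + 1 + 1) (by omega)]
          omega
        · rw [if_neg (by omega), hodp (k + 1 + 1) (by omega), hodp (k + 1) (by omega)]
          omega
        · rw [if_neg (by omega), hodp (k + 1 + 1) (by omega)]
          exact hb
      · rw [not_nonempty_iff_eq_empty] at hne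
        refine ih (by omega) (Or.inl (even_le_one hT hne)) ?_ (Or.inl ?_)
        · have h1 := hD (k + 2) (by omega) (by omega)
          rw [show k + 2 - 1 = k + 1 from rfl] at h1
          rcases h1 with h1 | h1
          · exact Or.inl h1
          · exact Or.inr (Or.inl h1)
        · rw [show k + 2 + 1 = k + 1 + 2 by omega, hne, card_empty]
          omega
  rcases Nat.lt_or_ge m 2 with hm2 | hm2
  · obtain rfl : m = 1 := by omega
    rcases hend with h | h | h
    · exact base_two hT hodd hcV h
    · exact base_path hT hodd hcV h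
    · refine base_few hT hodd hcV ?_
      have h0 : cc T (1 - 1) = 2 ^ n := by
        rw [show (1 - 1 : ℕ) = 0 from rfl, cc, if_neg (by omega), even_zero hodd, card_empty, lev,
          card_univ, hcV, add_zero]
      rw [h0] at h
      refine le_trans ?_ h
      rw [mul_assoc]
      omega
  · obtain ⟨k, rfl⟩ : ∃ k, m = k + 2 := ⟨m - 2, by omega⟩
    exact key k le_rfl (hD1 hm2) (hD2 hm2) hend

end

end Pool.Agent.H67.TP
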