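import Mathlib
import Pool.Agent.H57.SS.Core
import Pool.Agent.H57.SS.Tree

/-!
# TP/Flex: doubling steps with sets which are not closed

In `F_2^i` every set of `i + 2` vectors has a nonempty subset of even size with sum zero. So the
parity defects of a set can be left open except for a bounded number of them.
-/

set_option autoImplicit false

open Finset

namespace Pool.Agent.H67.TP

open Pool.Agent.H57.SS

section zerosum

variable {α : Type*} [DecidableEq α]

theorem exists_zero_subset {J : Type*} [AddCommGroup J] [Fintype J] (hJ : ∀ x : J, x + x = 0)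
    (g : α → J) (S : Finset α) (h : Fintype.card J < 2 ^ S.card) :
    ∃ D ⊆ S, D.Nonempty ∧ ∑ v ∈ D, g v = 0 := by
  have h1 : (univ : Finset J).card < S.powerset.card := by
    rw [card_powerset, card_univ]
    exact h
  obtain ⟨A, hA, B, hB, hne, heq⟩ := exists_ne_map_eq_of_card_lt_of_maps_to h1
    (f := fun A => ∑ v ∈ A, g v) (fun _ _ => mem_univ _)
  rw [mem_powerset] at hA hB
  refine ⟨(A \ B) ∪ (B \ A), union_subset (sdiff_subset.trans hA) (sdiff_subset.trans hB), ?_, ?_⟩
  · rw [nonempty_iff_ne_empty]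
    intro h0
    apply hne
    rw [union_eq_empty, sdiff_eq_empty_iff_subset, sdiff_eq_empty_iff_subset] at h0
    exact Subset.antisymm h0.1 h0.2
  · have hd : Disjoint (A \ B) (B \ A) := by
      rw [Finset.disjoint_left]
      intro v h2 h3
      exact (mem_sdiff.1 h3).2 (mem_sdiff.1 h2).1
    rw [sum_union hd]
    have e1 := sum_inter_add_sum_sdiff A B g
    have e2 := sum_inter_add_sum_sdiff B A g
    rw [inter_comm] at e2
    have e3 : ∑ v ∈ A \ B, g v = ∑ v ∈ B \ A, g v := by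
      apply add_left_cancel (a := ∑ v ∈ A ∩ B, g v)
      rw [e1, e2]
      exact heq
    rw [e3]
    exact hJ _

theorem exists_zero_even {i : ℕ} (g : α → (Fin i → ZMod 2)) (S : Finset α)
    (h : i + 2 ≤ S.card) : ∃ D ⊆ S, D.Nonempty ∧ Even D.card ∧ ∑ v ∈ D, g v = 0 := by
  have hc : Fintype.card ((Fin i → ZMod 2) × ZMod 2) = 2 ^ (i + 1) := by
    rw [Fintype.card_prod, ZMod.card, pow_succ]
    simp
  have h2 : ∀ x : ZMod 2, x + x = 0 := by decide
  obtain ⟨D, hD, hne, hs⟩ := exists_zero_subset (J := (Fin i → ZMod 2) × ZMod 2)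
    (fun x => Prod.ext (add_self_fin i x.1) (h2 x.2)) (fun v => (g v, 1)) S
    (by rw [hc]; exact Nat.pow_lt_pow_right (by norm_num) (by omega))
  refine ⟨D, hD, hne, ?_, ?_⟩
  · have h3 := congrArg Prod.snd hs
    rw [Prod.snd_sum] at h3
    simp only [sum_const, nsmul_eq_mul, mul_one, Prod.snd_zero] at h3
    exact ZMod.natCast_eq_zero_iff_even.1 h3
  · have h3 := congrArg Prod.fst hs
    rw [Prod.fst_sum] at h3
    exact h3

theorem exists_group {i : ℕ} (g : α → (Fin i → ZMod 2)) (S : Finset α) (t : ℕ) :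
    t + i + 1 ≤ S.card → ∃ O ⊆ S, Even O.card ∧ ∑ v ∈ O, g v = 0 ∧ t ≤ O.card ∧
      O.card ≤ t + i + 1 := by
  induction t with
  | zero => intro _; exact ⟨∅, empty_subset _, by simp, by simp, by simp, by simp⟩
  | succ t ih =>
    intro h
    obtain ⟨O, h1, h2, h3, h4, h5⟩ := ih (by omega)
    rcases Nat.lt_or_ge t O.card with h6 | h6
    · exact ⟨O, h1, h2, h3, h6, by omega⟩
    have hc : O.card = t := by omega
    have h7 : (S \ O).card + O.card = S.card := card_sdiff_add_card_eq_card h1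
    obtain ⟨S', hS', hS'c⟩ := exists_subset_card_eq (s := S \ O) (n := i + 2) (by omega)
    obtain ⟨D, hD, hne, he, hs⟩ := exists_zero_even g S' (by omega)
    have hd : Disjoint O D := by
      rw [Finset.disjoint_left]
      intro v h8 h9
      exact (mem_sdiff.1 (hS' (hD h9))).2 h8
    have hDc := card_le_card hD
    have hDp := card_pos.2 hne
    refine ⟨O ∪ D, union_subset h1 ((hD.trans hS').trans sdiff_subset), ?_, ?_, ?_, ?_⟩
    · rw [card_union_of_disjoint hd]
      exact h2.add he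
    · rw [sum_union hd, h3, hs, add_zero]
    · rw [card_union_of_disjoint hd]
      omega
    · rw [card_union_of_disjoint hd]
      omega

end zerosum

section select

variable {V : Type*} [DecidableEq V] {p : V → V}

/-- The selection of a set of given size with sum zero. -/
theorem exists_sel {R X : Finset V} {i : ℕ} (g : V → (Fin i → ZMod 2)) (hX : EvenFib p X)
    (hRX : R ⊆ X) {K : ℕ} (hK : Even K) (h1 : R.card + i + 1 ≤ K) (h2 : K ≤ X.card)
    (h3 : R.card + (oddPar p R).card + i + 1 ≤ X.card) :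
    ∃ E' : Finset V, R ⊆ E' ∧ E' ⊆ X ∧ E'.card = K ∧ ∑ v ∈ E', g (p v) = 0 := by
  obtain ⟨M, hMX, hd, he, hc, hM, hM'⟩ := exists_evenClosure hX hRX
  obtain ⟨A, hA⟩ : ∃ A : Finset V, A = R ∪ M := ⟨_, rfl⟩
  have hAc : A.card = R.card + (oddPar p R).card := by
    rw [hA, card_union_of_disjoint hd, hc]
  have hAX : A ⊆ X := by
    rw [hA]
    exact union_subset hRX hMX
  have hAe : EvenFib p A := by rw [hA]; exact he
  obtain ⟨a, ha⟩ := hAe.card_even
  obtain ⟨b, hb⟩ := hK
  have hXA : (X \ A).card + A.card = X.card := card_sdiff_add_card_eq_card hAX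
  have hXAe : EvenFib p (X \ A) := hX.sdiff hAe hAX
  rcases le_or_gt A.card K with h4 | h4
  · obtain ⟨Z, hZX, hZc, hZe⟩ := exists_evenFib_subset hXAe (b - a) (by omega)
    have hdZ : Disjoint A Z := by
      rw [Finset.disjoint_left]
      intro v h5 h6
      exact (mem_sdiff.1 (hZX h6)).2 h5
    refine ⟨A ∪ Z, ?_, union_subset hAX (hZX.trans sdiff_subset), ?_, ?_⟩
    · rw [hA]
      exact subset_union_left.trans subset_union_left
    · rw [card_union_of_disjoint hdZ]
      omega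
    · exact sum_evenFib_eq_zero (add_self_fin i) (hAe.union hZe hdZ) g
  · obtain ⟨t, ht⟩ : ∃ t, t = A.card - K := ⟨_, rfl⟩
    obtain ⟨O, hO, hOe, hOs, hO1, hO2⟩ := exists_group g (oddPar p R) t (by omega)
    obtain ⟨c, hc'⟩ := hOe
    obtain ⟨Z, hZX, hZc, hZe⟩ := exists_evenFib_subset hXAe ((O.card - t) / 2) (by omega)
    have hdZ : Disjoint A Z := by
      rw [Finset.disjoint_left]
      intro v h5 h6
      exact (mem_sdiff.1 (hZX h6)).2 h5
    -- `p` is injective on `M`
    have himg : M.image p = oddPar p R := by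
      ext w
      rw [mem_image]
      constructor
      · rintro ⟨v, hv, rfl⟩
        exact hM v hv
      · exact hM' w
    have hinj : Set.InjOn p M := by
      rw [← card_image_iff, himg, hc]
    obtain ⟨MO, hMO⟩ : ∃ MO : Finset V, MO = M.filter (fun v => p v ∈ O) := ⟨_, rfl⟩
    have hMOi : MO.image p = O := by
      ext w
      rw [mem_image, hMO]
      constructor
      · rintro ⟨v, hv, rfl⟩
        exact (mem_filter.1 hv).2
      · intro hw
        obtain ⟨v, hv, hvw⟩ := hM' w (hO hw)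
        exact ⟨v, mem_filter.2 ⟨hv, hvw ▸ hw⟩, hvw⟩
    have hMOinj : Set.InjOn p MO := hinj.mono (by
      intro v hv
      rw [hMO] at hv
      exact (mem_filter.1 hv).1)
    have hMOc : MO.card = O.card := by
      rw [← hMOi, card_image_of_injOn hMOinj]
    have hMOs : ∑ v ∈ MO, g (p v) = 0 := by
      rw [← hOs, ← hMOi, sum_image hMOinj]
    have hMOA : MO ⊆ A ∪ Z := by
      intro v hv
      rw [hMO] at hv
      rw [hA]
      exact mem_union_left _ (mem_union_right _ (mem_filter.1 hv).1)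
    have hsum : ∑ v ∈ A ∪ Z, g (p v) = 0 :=
      sum_evenFib_eq_zero (add_self_fin i) (hAe.union hZe hdZ) g
    refine ⟨(A ∪ Z) \ MO, ?_, ?_, ?_, ?_⟩
    · intro v hv
      rw [mem_sdiff]
      refine ⟨?_, ?_⟩
      · rw [hA]
        exact mem_union_left _ (mem_union_left _ hv)
      · intro h5
        rw [hMO] at h5
        exact (Finset.disjoint_left.1 hd) hv (mem_filter.1 h5).1
    · exact sdiff_subset.trans (union_subset hAX (hZX.trans sdiff_subset))
    · rw [card_sdiff_of_subset hMOA, card_union_of_disjoint hdZ]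
      omega
    · have h5 := sum_sdiff hMOA (f := fun v => g (p v))
      rw [hMOs, hsum, add_zero] at h5
      exact h5

end select

section double

variable {V : Type*} [DecidableEq V] {p : V → V} {r : V}

/-- A doubling step with a set which need not be closed. -/
theorem plab_double {E E' : Finset V} {i : ℕ} (hr : r ∈ E) (hEc : E.card = 2 ^ i)
    (g : V → (Fin i → ZMod 2)) (hg0 : g r = 0) (hginj : Set.InjOn g E)
    (hgim : E.image (fun v => g v + g (p v)) = E.image g) (hEE' : E ⊆ E')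
    (hpE : ∀ v ∈ E', p v ∈ E) (hE'c : E'.card = 2 ^ (i + 1))
    (hsum : ∑ v ∈ E', g (p v) = 0) : PLab p r E' (Fin (i + 1) → ZMod 2) := by
  have hcJ : Fintype.card (Fin i → ZMod 2) = 2 ^ i := by simp
  have hsumE : Set.InjOn (fun v => g v + g (p v)) E := by
    rw [← card_image_iff, hgim, card_image_iff]
    exact hginj
  have hsE : ∑ v ∈ E, g (p v) = 0 := by
    have e1 : ∑ v ∈ E, (g v + g (p v)) = ∑ x ∈ E.image (fun v => g v + g (p v)), x := by
      rw [sum_image hsumE]
    have e2 : ∑ v ∈ E, g v = ∑ x ∈ E.image g, x := by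
      rw [sum_image hginj]
    rw [sum_add_distrib, hgim, ← e2] at e1
    exact add_eq_left.1 e1
  have hsU : ∑ v ∈ E' \ E, g (p v) = 0 := by
    have h1 := sum_sdiff hEE' (f := fun v => g (p v))
    rw [hsE, hsum, add_zero] at h1
    exact h1
  have hUc : (E' \ E).card = Fintype.card (Fin i → ZMod 2) := by
    rw [card_sdiff_of_subset hEE', hE'c, hEc, hcJ, pow_succ]
    omega
  obtain ⟨a, ha1, ha2⟩ := hall_finset _ (fun v => g (p v)) hUc hsU
  obtain ⟨g', hg'⟩ : ∃ g' : V → (Fin i → ZMod 2) × ZMod 2,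
      ∀ v, g' v = if v ∈ E then (g v, 0) else (a v, 1) := ⟨_, fun _ => rfl⟩
  have hg'E : ∀ v ∈ E, g' v = (g v, 0) := fun v hv => by rw [hg', if_pos hv]
  have hg'U : ∀ v, v ∉ E → g' v = (a v, 1) := fun v hv => by rw [hg', if_neg hv]
  have h01 : (0 : ZMod 2) ≠ 1 := by decide
  have hinj1 : Set.InjOn g' E' := by
    intro u hu v hv huv
    rw [mem_coe] at hu hv
    by_cases huE : u ∈ E
    · by_cases hvE : v ∈ E
      · rw [hg'E u huE, hg'E v hvE, Prod.mk.injEq] at huv
        exact hginj huE hvE huv.1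
      · rw [hg'E u huE, hg'U v hvE, Prod.mk.injEq] at huv
        exact (h01 huv.2).elim
    · by_cases hvE : v ∈ E
      · rw [hg'U u huE, hg'E v hvE, Prod.mk.injEq] at huv
        exact (h01 huv.2.symm).elim
      · rw [hg'U u huE, hg'U v hvE, Prod.mk.injEq] at huv
        exact ha1 (mem_coe.2 (mem_sdiff.2 ⟨hu, huE⟩)) (mem_coe.2 (mem_sdiff.2 ⟨hv, hvE⟩)) huv.1
  have hs1 : ∀ v ∈ E, g' v + g' (p v) = (g v + g (p v), 0) := by
    intro v hv
    rw [hg'E v hv, hg'E (p v) (hpE v (hEE' hv))]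
    simp
  have hs2 : ∀ v ∈ E', v ∉ E → g' v + g' (p v) = (a v + g (p v), 1) := by
    intro v hv hvE
    rw [hg'U v hvE, hg'E (p v) (hpE v hv)]
    simp
  have hinj2 : Set.InjOn (fun v => g' v + g' (p v)) E' := by
    intro u hu v hv huv
    rw [mem_coe] at hu hv
    simp only at huv
    by_cases huE : u ∈ E
    · by_cases hvE : v ∈ E
      · rw [hs1 u huE, hs1 v hvE, Prod.mk.injEq] at huv
        exact hsumE huE hvE huv.1
      · rw [hs1 u huE, hs2 v hv hvE, Prod.mk.injEq] at huv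
        exact (h01 huv.2).elim
    · by_cases hvE : v ∈ E
      · rw [hs2 u hu huE, hs1 v hvE, Prod.mk.injEq] at huv
        exact (h01 huv.2.symm).elim
      · rw [hs2 u hu huE, hs2 v hv hvE, Prod.mk.injEq] at huv
        exact ha2 (mem_coe.2 (mem_sdiff.2 ⟨hu, huE⟩)) (mem_coe.2 (mem_sdiff.2 ⟨hv, hvE⟩)) huv.1
  have hcJ2 : Fintype.card ((Fin i → ZMod 2) × ZMod 2) = 2 ^ (i + 1) := by
    rw [Fintype.card_prod, hcJ, ZMod.card, pow_succ]
  have huniv : ∀ f : V → (Fin i → ZMod 2) × ZMod 2, Set.InjOn f E' → E'.image f = univ := by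
    intro f hf
    rw [← card_eq_iff_eq_univ, card_image_of_injOn hf, hE'c, hcJ2]
  have h2 : ∀ x : ZMod 2, x + x = 0 := by decide
  obtain ⟨e⟩ := exists_addEquiv ((Fin i → ZMod 2) × ZMod 2)
    (fun x => Prod.ext (add_self_fin i x.1) (h2 x.2)) (i + 1) hcJ2
  refine PLab.congr e ⟨g', by rw [hg'E r hr, hg0]; rfl, hinj1, ?_⟩
  rw [huniv _ hinj1, huniv _ hinj2]

/-- The flexible doubling step. -/
theorem plab_flex {E R X : Finset V} {i : ℕ} (hr : r ∈ E) (hEc : E.card = 2 ^ i)
    (hlab : PLab p r E (Fin i → ZMod 2)) (hX : EvenFib p X) (hER : E ⊆ R) (hRX : R ⊆ X)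
    (hpX : ∀ v ∈ X, p v ∈ E) (h1 : R.card + i + 1 ≤ 2 ^ (i + 1)) (h2 : 2 ^ (i + 1) ≤ X.card)
    (h3 : R.card + (oddPar p R).card + i + 1 ≤ X.card) :
    ∃ E' : Finset V, R ⊆ E' ∧ E' ⊆ X ∧ E'.card = 2 ^ (i + 1) ∧
      PLab p r E' (Fin (i + 1) → ZMod 2) := by
  obtain ⟨g, hg0, hginj, hgim⟩ := hlab
  obtain ⟨E', e1, e2, e3, e4⟩ := exists_sel g hX hRX
    (K := 2 ^ (i + 1)) (Nat.even_pow.2 ⟨even_two, by omega⟩) h1 h2 h3
  exact ⟨E', e1, e2, e3, plab_double hr hEc g hg0 hginj hgim (hER.trans e1)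
    (fun v hv => hpX v (e2 hv)) e3 e4⟩

/-- The last doubling step. -/
theorem plab_last {E E' : Finset V} {i : ℕ} (hr : r ∈ E) (hEc : E.card = 2 ^ i)
    (hlab : PLab p r E (Fin i → ZMod 2)) (hE' : EvenFib p E') (hEE' : E ⊆ E')
    (hpE : ∀ v ∈ E', p v ∈ E) (hE'c : E'.card = 2 ^ (i + 1)) :
    PLab p r E' (Fin (i + 1) → ZMod 2) := by
  obtain ⟨g, hg0, hginj, hgim⟩ := hlab
  exact plab_double hr hEc g hg0 hginj hgim hEE' hpE hE'c
    (sum_evenFib_eq_zero (add_self_fin i) hE' g)

end double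

end Pool.Agent.H67.TP
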