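import Mathlib
import Pool.Agent.H67.TP.Flex
import Pool.Agent.H67.TP.Chain

/-!
# TP/Two: the last two doublings with a set which is not closed
-/

set_option autoImplicit false

open Finset

namespace Pool.Agent.H67.TP

open Pool.Agent.H57.SS

section

variable {V : Type*} [DecidableEq V] {p : V → V} {r : V}

theorem clos_le {X P : Finset V} (hX : EvenFib p X) (hPX : P ⊆ X) :
    P.card + (oddPar p P).card ≤ X.card := by
  obtain ⟨M, hMX, hd, he, hc, hM, -⟩ := exists_evenClosure hX hPX
  rw [← hc, ← card_union_of_disjoint hd]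
  exact card_le_card (union_subset hPX hMX)

/-- A subset with at most one element over each point has at most half of the elements. -/
theorem two_mul_le_of_injOn {Z L : Finset V} (hZ : EvenFib p Z) (hLZ : L ⊆ Z)
    (hinj : Set.InjOn p L) : 2 * L.card ≤ Z.card := by
  have h1 : L.card = (L.image p).card := (card_image_of_injOn hinj).symm
  have h2 : ∀ w ∈ L.image p, 2 ≤ (Z.filter (fun v => p v = w)).card := by
    intro w hw
    obtain ⟨v, hv, hvw⟩ := mem_image.1 hw
    have h3 : 0 < (Z.filter (fun v => p v = w)).card :=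
      card_pos.2 ⟨v, mem_filter.2 ⟨hLZ hv, hvw⟩⟩
    obtain ⟨k, hk⟩ := hZ w
    omega
  have h3 : ∑ _w ∈ L.image p, 2 ≤ ∑ w ∈ L.image p, (Z.filter (fun v => p v = w)).card :=
    sum_le_sum h2
  have h4 : ∑ w ∈ L.image p, (Z.filter (fun v => p v = w)).card
      = (Z.filter (fun v => p v ∈ L.image p)).card := by
    have h5 : ∀ v ∈ Z.filter (fun v => p v ∈ L.image p), p v ∈ L.image p :=
      fun v hv => (mem_filter.1 hv).2
    rw [card_eq_sum_card_fiberwise (f := p) (t := L.image p) h5]
    apply sum_congr rfl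
    intro w hw
    congr 1
    ext v
    rw [mem_filter, mem_filter, mem_filter]
    exact ⟨fun h => ⟨⟨h.1, h.2 ▸ hw⟩, h.2⟩, fun h => ⟨h.1.1, h.2⟩⟩
  rw [sum_const, smul_eq_mul, h4, ← h1] at h3
  have h5 := card_le_card (filter_subset (fun v => p v ∈ L.image p) Z)
  omega

/-- The choice of the set `E_0`: it has as many elements of `P` as possible. -/
theorem exists_rich {A1 A2 P M1 : Finset V} (h1e : EvenFib p A1) (h2e : EvenFib p A2)
    (h21 : A2 ⊆ A1) (hA1 : A1 \ P ⊆ M1) (hinj : Set.InjOn p M1) {K : ℕ} (hK : Even K)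
    (h1 : A2.card ≤ K) (h2 : K ≤ A1.card) :
    ∃ E : Finset V, A2 ⊆ E ∧ E ⊆ A1 ∧ EvenFib p E ∧ E.card = K ∧
      (E \ P ⊆ A2 ∨ 2 * (E \ P).card + P.card ≤ (A2 \ P).card + M1.card + K + (P \ A1).card) := by
  obtain ⟨B, hB⟩ : ∃ B : Finset V, B = (A1 \ A2) ∩ P := ⟨_, rfl⟩
  obtain ⟨B', hB'B, hB'e, hB'c, -⟩ := exists_evenInterior (p := p) B
  have hde : EvenFib p (A1 \ A2) := h1e.sdiff h2e h21
  have hBd : B ⊆ A1 \ A2 := by rw [hB]; exact inter_subset_left
  have hBP : B ⊆ P := by rw [hB]; exact inter_subset_right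
  obtain ⟨a, ha⟩ := h2e.card_even
  obtain ⟨b, hb⟩ := hK
  obtain ⟨c, hc⟩ := hB'e.card_even
  have h12 : (A1 \ A2).card + A2.card = A1.card := card_sdiff_add_card_eq_card h21
  rcases le_or_gt K (A2.card + B'.card) with h3 | h3
  · obtain ⟨Z, hZ1, hZ2, hZ3⟩ := exists_evenFib_subset hB'e (b - a) (by omega)
    have hZd : Z ⊆ A1 \ A2 := hZ1.trans (hB'B.trans hBd)
    have hd : Disjoint A2 Z := by
      rw [Finset.disjoint_left]
      intro v h4 h5
      exact (mem_sdiff.1 (hZd h5)).2 h4
    refine ⟨A2 ∪ Z, subset_union_left, union_subset h21 (hZd.trans sdiff_subset),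
      h2e.union hZ3 hd, ?_, Or.inl ?_⟩
    · rw [card_union_of_disjoint hd]
      omega
    · intro v hv
      rw [mem_sdiff, mem_union] at hv
      rcases hv.1 with h4 | h4
      · exact h4
      · exact (hv.2 (hBP (hB'B (hZ1 h4)))).elim
  · have hB'd : B' ⊆ A1 \ A2 := hB'B.trans hBd
    have hCe : EvenFib p ((A1 \ A2) \ B') := hde.sdiff hB'e hB'd
    have hCc : ((A1 \ A2) \ B').card + B'.card = (A1 \ A2).card :=
      card_sdiff_add_card_eq_card hB'd
    obtain ⟨Z, hZ1, hZ2, hZ3⟩ := exists_evenFib_subset hCe (b - a - c) (by omega)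
    have hdBZ : Disjoint B' Z := by
      rw [Finset.disjoint_left]
      intro v h4 h5
      exact (mem_sdiff.1 (hZ1 h5)).2 h4
    have hBZe : EvenFib p (B' ∪ Z) := hB'e.union hZ3 hdBZ
    have hBZd : B' ∪ Z ⊆ A1 \ A2 := union_subset hB'd (hZ1.trans sdiff_subset)
    have hd : Disjoint A2 (B' ∪ Z) := by
      rw [Finset.disjoint_left]
      intro v h4 h5
      exact (mem_sdiff.1 (hBZd h5)).2 h4
    refine ⟨A2 ∪ (B' ∪ Z), subset_union_left, union_subset h21 (hBZd.trans sdiff_subset),
      h2e.union hBZe hd, ?_, Or.inr ?_⟩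
    · rw [card_union_of_disjoint hd, card_union_of_disjoint hdBZ]
      omega
    · -- the elements outside `P`
      have e1 : (A2 ∪ (B' ∪ Z)) \ P ⊆ (A2 \ P) ∪ (Z \ P) := by
        intro v hv
        rw [mem_sdiff, mem_union, mem_union] at hv
        rw [mem_union, mem_sdiff, mem_sdiff]
        rcases hv.1 with h4 | h4 | h4
        · exact Or.inl ⟨h4, hv.2⟩
        · exact (hv.2 (hBP (hB'B h4))).elim
        · exact Or.inr ⟨h4, hv.2⟩
      have e2 := (card_le_card e1).trans (card_union_le _ _)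
      have e3 : 2 * (Z \ P).card ≤ Z.card := by
        apply two_mul_le_of_injOn hZ3 sdiff_subset
        apply hinj.mono
        intro v hv
        rw [mem_coe, mem_sdiff] at hv
        apply hA1
        rw [mem_sdiff]
        exact ⟨(mem_sdiff.1 (mem_sdiff.1 (hZ1 hv.1)).1).1, hv.2⟩
      -- `|P| = |P ∩ A2| + |B| + |P \ A1|`
      have e4 : P.card ≤ (A2 ∩ P).card + B.card + (P \ A1).card := by
        have e5 : P ⊆ ((A2 ∩ P) ∪ B) ∪ (P \ A1) := by
          intro v hv
          rw [mem_union, mem_union, hB, mem_inter, mem_inter, mem_sdiff, mem_sdiff]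
          by_cases h4 : v ∈ A1
          · by_cases h5 : v ∈ A2
            · exact Or.inl (Or.inl ⟨h5, hv⟩)
            · exact Or.inl (Or.inr ⟨⟨h4, h5⟩, hv⟩)
          · exact Or.inr ⟨hv, h4⟩
        have e6 := (card_le_card e5).trans (card_union_le _ _)
        have e7 := card_union_le (A2 ∩ P) B
        omega
      have e5 : (A2 ∩ P).card + (A2 \ P).card = A2.card := card_inter_add_card_sdiff _ _
      -- `|oddPar B| ≤ |M1|`
      have e6 : (oddPar p B).card ≤ M1.card := by
        have e7 := clos_le hde hBd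
        have e8 : (A1 \ A2).card ≤ B.card + M1.card := by
          have e9 : A1 \ A2 ⊆ B ∪ M1 := by
            intro v hv
            rw [mem_union]
            by_cases h4 : v ∈ P
            · left
              rw [hB, mem_inter]
              exact ⟨hv, h4⟩
            · right
              apply hA1
              rw [mem_sdiff]
              exact ⟨(mem_sdiff.1 hv).1, h4⟩
          exact (card_le_card e9).trans (card_union_le _ _)
        omega
      omega

end

theorem chain_flex {V : Type*} [Fintype V] [DecidableEq V] {p : V → V} {r : V}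
    (hev : EvenFib p (univ : Finset V)) {k : ℕ} (hn : Fintype.card V = 2 ^ (k + 2))
    (P1 P2 : Finset V) (h21 : P2 ⊆ P1) (hr : r ∈ P2) (hp0 : ∀ v, p v ∈ P1)
    (hp1 : ∀ v ∈ P1, p v ∈ P2) (hch : ∀ u ∈ P1, ∃ v, p v = u)
    (hC1 : P2.card + (oddPar p P2).card + (k + 2) ≤ 2 ^ k)
    (hC2 : P1.card + (oddPar p P2).card + (k + 1) ≤ 2 ^ (k + 1))
    (hC3 : 2 ^ (k + 1) < P1.card + (oddPar p P1).card)
    (hbase : ∀ (E : Finset V) (i : ℕ), 1 ≤ i → EvenFib p E → P2 ⊆ E →
      (∀ v ∈ E, p v ∈ P2) → E.card = 2 ^ i → PLab p r E (Fin i → ZMod 2)) :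
    PLab p r univ (Fin (k + 2) → ZMod 2) := by
  have h21p : ∀ v ∈ P2, p v ∈ P2 := fun v hv => hp1 v (h21 hv)
  have hpodd1 : ∀ w ∈ oddPar p P1, w ∈ P2 := by
    intro w hw
    rw [mem_oddPar] at hw
    obtain ⟨v, hv⟩ := card_pos.1 hw.pos
    rw [mem_filter] at hv
    rw [← hv.2]
    exact hp1 v hv.1
  have hodd1 : (oddPar p P1).card ≤ P2.card := card_le_card hpodd1
  obtain ⟨M1, hM1X, hd1, he1, hc1, hM1, hM1'⟩ := exists_evenClosure hev (subset_univ P1)
  obtain ⟨A1, hA1⟩ : ∃ A : Finset V, A = P1 ∪ M1 := ⟨_, rfl⟩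
  rw [← hA1] at he1
  have hA1c : A1.card = P1.card + (oddPar p P1).card := by
    rw [hA1, card_union_of_disjoint hd1, hc1]
  have hP1A1 : P1 ⊆ A1 := by rw [hA1]; exact subset_union_left
  have hpA1 : ∀ v ∈ A1, p v ∈ P2 := by
    intro v hv
    rw [hA1, mem_union] at hv
    rcases hv with h | h
    · exact hp1 v h
    · exact hpodd1 _ (hM1 v h)
  have hinj : Set.InjOn p M1 := by
    have himg : M1.image p = oddPar p P1 := by
      ext w
      rw [mem_image]
      constructor
      · rintro ⟨v, hv, rfl⟩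
        exact hM1 v hv
      · exact hM1' w
    rw [← card_image_iff, himg, hc1]
  obtain ⟨M2, hM2X, hd2, he2, hc2, hM2, -⟩ := exists_evenClosure he1 (h21.trans hP1A1)
  obtain ⟨A2, hA2⟩ : ∃ A : Finset V, A = P2 ∪ M2 := ⟨_, rfl⟩
  rw [← hA2] at he2
  have hA2c : A2.card = P2.card + (oddPar p P2).card := by
    rw [hA2, card_union_of_disjoint hd2, hc2]
  have hP2A2 : P2 ⊆ A2 := by rw [hA2]; exact subset_union_left
  have hA21 : A2 ⊆ A1 := by
    rw [hA2]
    exact union_subset (h21.trans hP1A1) hM2X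
  have hA2P : (A2 \ P1).card ≤ (oddPar p P2).card := by
    rw [← hc2]
    apply card_le_card
    intro v hv
    rw [mem_sdiff, hA2, mem_union] at hv
    rcases hv.1 with h | h
    · exact (hv.2 (h21 h)).elim
    · exact h
  have hA1P : A1 \ P1 ⊆ M1 := by
    intro v hv
    rw [mem_sdiff, hA1, mem_union] at hv
    rcases hv.1 with h | h
    · exact (hv.2 h).elim
    · exact h
  have hpow : 2 ^ (k + 1) = 2 * 2 ^ k := by rw [pow_succ]; ring
  have hpow2 : 2 ^ (k + 2) = 4 * 2 ^ k := by rw [pow_add]; ring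
  have hP2pos : 0 < P2.card := card_pos.2 ⟨r, hr⟩
  have hk : 1 ≤ k := by
    rcases Nat.eq_zero_or_pos k with h | h
    · subst h
      simp only [pow_zero] at hC1
      omega
    · exact h
  obtain ⟨E, hAE, hEA, hEe, hEc, hrich⟩ := exists_rich he1 he2 hA21 hA1P hinj
    (K := 2 ^ k) (Nat.even_pow.2 ⟨even_two, by omega⟩) (by omega) (by omega)
  have hlab := hbase E k hk hEe (hP2A2.trans hAE) (fun v hv => hpA1 v (hEA hv)) hEc
  obtain ⟨R, hR⟩ : ∃ R : Finset V, R = P1 ∪ E := ⟨_, rfl⟩
  have hRc : R.card = P1.card + (E \ P1).card := by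
    rw [hR, ← card_union_of_disjoint (disjoint_sdiff : Disjoint P1 (E \ P1)),
      union_sdiff_self_eq_union]
  have hRA : R ⊆ A1 := by rw [hR]; exact union_subset hP1A1 hEA
  have hP1A1c : (P1 \ A1).card = 0 := by
    rw [card_eq_zero, sdiff_eq_empty_iff_subset]
    exact hP1A1
  have hR1 : R.card + (k + 1) ≤ 2 ^ (k + 1) := by
    rw [hRc]
    rcases hrich with h | h
    · have h1 : (E \ P1).card ≤ (A2 \ P1).card := by
        apply card_le_card
        intro v hv
        rw [mem_sdiff]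
        exact ⟨h hv, (mem_sdiff.1 hv).2⟩
      omega
    · rw [hP1A1c] at h
      omega
  obtain ⟨X, hX⟩ : ∃ X : Finset V, X = univ.filter (fun v => p v ∈ E) := ⟨_, rfl⟩
  have mX : ∀ v, v ∈ X ↔ p v ∈ E := by
    intro v
    rw [hX, mem_filter]
    exact ⟨fun h => h.2, fun h => ⟨mem_univ _, h⟩⟩
  have hXe : EvenFib p X := by
    intro w
    by_cases hw : w ∈ E
    · have h1 : X.filter (fun v => p v = w) = univ.filter (fun v => p v = w) := by
        ext v
        rw [mem_filter, mem_filter, mX]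
        exact ⟨fun h => ⟨mem_univ _, h.2⟩, fun h => ⟨h.2 ▸ hw, h.2⟩⟩
      rw [h1]
      exact hev w
    · have h1 : X.filter (fun v => p v = w) = ∅ := by
        apply filter_false_of_mem
        intro v hv h
        rw [mX, h] at hv
        exact hw hv
      rw [h1]
      simp
  have hP2E : P2 ⊆ E := hP2A2.trans hAE
  have hA1X : A1 ⊆ X := fun v hv => (mX v).2 (hP2E (hpA1 v hv))
  -- the children of the vertices of `G`
  obtain ⟨G, hG⟩ : ∃ G : Finset V, G = (E \ A2) ∩ P1 := ⟨_, rfl⟩
  have hGc : E.card ≤ A2.card + 2 * G.card := by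
    have h1 : (E \ A2).card + A2.card = E.card := card_sdiff_add_card_eq_card hAE
    have h2 : 2 * ((E \ A2) \ P1).card ≤ (E \ A2).card := by
      apply two_mul_le_of_injOn (hEe.sdiff he2 hAE) sdiff_subset
      apply hinj.mono
      intro v hv
      rw [mem_coe, mem_sdiff, mem_sdiff] at hv
      apply hA1P
      rw [mem_sdiff]
      exact ⟨hEA hv.1.1, hv.2⟩
    have h3 : ((E \ A2) ∩ P1).card + ((E \ A2) \ P1).card = (E \ A2).card :=
      card_inter_add_card_sdiff _ _
    rw [← hG] at h3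
    omega
  have hXc : A1.card + 2 * G.card ≤ X.card := by
    obtain ⟨Y, hY⟩ : ∃ Y : Finset V, Y = univ.filter (fun v => p v ∈ G) := ⟨_, rfl⟩
    have h1 : 2 * G.card ≤ Y.card := by
      have h2 : ∀ v ∈ Y, p v ∈ G := by
        intro v hv
        rw [hY] at hv
        exact (mem_filter.1 hv).2
      rw [card_eq_sum_card_fiberwise (f := p) (t := G) h2]
      have h3 : ∑ _u ∈ G, 2 ≤ ∑ u ∈ G, (Y.filter (fun v => p v = u)).card := by
        apply sum_le_sum
        intro u hu
        have h4 : Y.filter (fun v => p v = u) = univ.filter (fun v => p v = u) := by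
          ext v
          rw [hY, mem_filter, mem_filter, mem_filter]
          exact ⟨fun h => ⟨mem_univ _, h.2⟩, fun h => ⟨⟨mem_univ _, h.2 ▸ hu⟩, h.2⟩⟩
        rw [h4]
        have hu1 : u ∈ P1 := by
          rw [hG] at hu
          exact (mem_inter.1 hu).2
        obtain ⟨v, hv⟩ := hch u hu1
        have h5 : 0 < (univ.filter (fun v => p v = u)).card :=
          card_pos.2 ⟨v, mem_filter.2 ⟨mem_univ _, hv⟩⟩
        obtain ⟨l, hl⟩ := hev u
        omega
      rw [sum_const, smul_eq_mul] at h3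
      omega
    have h2 : Disjoint A1 Y := by
      rw [Finset.disjoint_left]
      intro v h3 h4
      rw [hY, mem_filter, hG, mem_inter, mem_sdiff] at h4
      exact h4.2.1.2 (hP2A2 (hpA1 v h3))
    have h3 : A1 ∪ Y ⊆ X := by
      apply union_subset hA1X
      intro v hv
      rw [hY, mem_filter, hG, mem_inter, mem_sdiff] at hv
      exact (mX v).2 hv.2.1.1
    have h4 := card_le_card h3
    rw [card_union_of_disjoint h2] at h4
    omega
  have hR3 := clos_le he1 hRA
  obtain ⟨E', e1, e2, e3, e4⟩ := plab_flex (r := r) (hP2E hr) hEc hlab hXe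
    (R := R) (by rw [hR]; exact subset_union_right) (hRA.trans hA1X)
    (fun v hv => (mX v).1 hv) (by omega) (by omega) (by omega)
  have hP1E' : P1 ⊆ E' := by
    refine Subset.trans ?_ e1
    rw [hR]
    exact subset_union_left
  exact plab_last (hP1E' (h21 hr)) e3 e4 hev (subset_univ _) (fun v _ => hP1E' (hp0 v))
    (by rw [card_univ, hn])

end Pool.Agent.H67.TP
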