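import Mathlib
import Pool.Agent.H67.TP.ChainG

/-!
# TP/TwoB: the two-level chain with an explicit inequality
-/

set_option autoImplicit false

open Finset

namespace Pool.Agent.H67.TP

open Pool.Agent.H57.SS

section

variable {V : Type*} [Fintype V] [DecidableEq V] {p : V → V} {r : V} {n : ℕ}

theorem exists_ctx (hev : EvenFib p (univ : Finset V)) (hn : Fintype.card V = 2 ^ n)
    (P : ℕ → Finset V) {k : ℕ} (hP0 : P 0 = univ) (hanti : ∀ j, P (j + 1) ⊆ P j)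
    (hr : r ∈ P (k + 2)) (hpP : ∀ j, j < k + 2 → ∀ v ∈ P j, p v ∈ P (j + 1))
    (hch : ∀ j, j < k + 2 → ∀ u ∈ P (j + 1), ∃ v ∈ P j, p v = u) :
    ∃ A C : ℕ → Finset V, Ctx p r n (k + 2) P A C ∧
      C 1 = univ.filter (fun v => p v ∈ P 2) := by
  obtain ⟨A, hPA, hAA, hAe, hAc, hAp⟩ := exists_closures hev P hP0 hanti
  have hPm : ∀ j, j ≤ k + 2 → P (k + 2) ⊆ P j := by
    intro j hj
    have : ∀ l, P (j + l) ⊆ P j := by
      intro l
      induction l with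
      | zero => exact Subset.rfl
      | succ l ih => exact (hanti (j + l)).trans ih
    have h1 := this (k + 2 - j)
    rwa [show j + (k + 2 - j) = k + 2 by omega] at h1
  have hpodd : ∀ j, ∀ w ∈ oddPar p (P j), ∃ v ∈ P j, p v = w := by
    intro j w hw
    rw [mem_oddPar] at hw
    obtain ⟨v, hv⟩ := card_pos.1 hw.pos
    rw [mem_filter] at hv
    exact ⟨v, hv.1, hv.2⟩
  have hpA : ∀ j, j < k + 2 → ∀ v ∈ A j, p v ∈ P (j + 1) := by
    intro j hj v hv
    by_cases h : v ∈ P j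
    · exact hpP j hj v h
    · obtain ⟨w, hw, hpw⟩ := hpodd j _ (hAp j v hv h)
      rw [← hpw]
      exact hpP j hj w hw
  obtain ⟨D, hDd⟩ : ∃ D : Finset V, D = univ.filter (fun v => p v ∈ P 2) := ⟨_, rfl⟩
  have mD : ∀ v, v ∈ D ↔ p v ∈ P 2 := by
    intro v
    rw [hDd, mem_filter]
    exact ⟨fun h => h.2, fun h => ⟨mem_univ _, h⟩⟩
  have hDe : EvenFib p D := by
    intro w
    by_cases hw : w ∈ P 2
    · have h1 : D.filter (fun v => p v = w) = univ.filter (fun v => p v = w) := by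
        ext v
        rw [mem_filter, mem_filter, mD]
        exact ⟨fun h => ⟨mem_univ _, h.2⟩, fun h => ⟨h.2 ▸ hw, h.2⟩⟩
      rw [h1]
      exact hev w
    · have h1 : D.filter (fun v => p v = w) = ∅ := by
        apply filter_false_of_mem
        intro v hv h
        rw [mD, h] at hv
        exact hw hv
      rw [h1]
      simp
  have hA0 : A 0 = univ := by
    apply univ_subset_iff.1
    have := hPA 0
    rwa [hP0] at this
  obtain ⟨C, hC⟩ : ∃ C : ℕ → Finset V, C = fun j => if j = 1 then D else A j := ⟨_, rfl⟩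
  have hC1 : C 1 = D := by rw [hC]; exact if_pos rfl
  have hCj : ∀ j, j ≠ 1 → C j = A j := by
    intro j hj
    rw [hC]
    exact if_neg hj
  refine ⟨A, C, ?_, by rw [hC1, hDd]⟩
  constructor
  · exact hn
  · exact hA0
  · exact fun j hj => hCj j (by omega)
  · exact hPA
  · intro j hj
    by_cases h1 : j = 1
    · subst h1
      rw [hC1]
      exact fun v hv => (mD v).2 (hpA 1 (by omega) v hv)
    · rw [hCj j h1]
  · intro j
    by_cases h1 : j = 0
    · subst h1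
      rw [hA0]
      exact subset_univ _
    · rw [hCj (j + 1) (by omega)]
      exact hAA j
  · exact hAe
  · intro j hj
    by_cases h1 : j = 1
    · subst h1
      rw [hC1]
      exact hDe
    · rw [hCj j h1]
      exact hAe j
  · exact hAc
  · exact fun j hj => hPm j hj hr
  · exact hpA
  · intro j h1 h2 v hv
    by_cases h3 : j = 1
    · subst h3
      rw [hC1] at hv
      exact (mD v).1 hv
    · rw [hCj j h3] at hv
      exact hpA j h2 v hv
  · intro j hj u hu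
    obtain ⟨v, hv, hpv⟩ := hch j hj u hu
    have h1 : 0 < ((A j).filter (fun v => p v = u)).card :=
      card_pos.2 ⟨v, mem_filter.2 ⟨hPA j hv, hpv⟩⟩
    obtain ⟨l, hl⟩ := hAe j u
    omega

/-- The first set of the two-level chain, with an explicit inequality. -/
theorem base_ineq {P A C : ℕ → Finset V} (h : Ctx p r n 2 P A C) {i : ℕ} (hi1 : 1 ≤ i)
    (hi2 : 2 ^ i ≤ (C 1).card) (hi3 : (C 1).card < 2 ^ (i + 1)) (ha2 : (A 2).card ≤ 2 ^ i)
    (h8 : (2 * 2 ^ i - (C 1).card) * ((A 1).card - (A 2).card) ≤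
      ((A 0).card - (C 1).card) * (2 ^ i - (A 2).card))
    (hbase : ∀ (E : Finset V) (i : ℕ), 1 ≤ i → EvenFib p E → P 2 ⊆ E →
      (∀ v ∈ E, p v ∈ P 2) → E.card = 2 ^ i → (C 1).card < 2 ^ (i + 1) →
      PLab p r E (Fin i → ZMod 2)) :
    ∃ (i : ℕ) (E : Finset V), Ready p r A C 0 i E := by
  have h2 := h.two_le (j := 2) le_rfl
  have hAC : A 1 ⊆ C 1 := h.AC 1 le_rfl
  have hA21 : A 2 ⊆ A 1 := h.cA 1
  have hbase' : ∀ E : Finset V, EvenFib p E → A 2 ⊆ E → E ⊆ C 1 → E.card = 2 ^ i →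
      PLab p r E (Fin i → ZMod 2) := by
    intro E h1 h2 h3 h4
    exact hbase E i hi1 h1 ((h.PA 2).trans h2)
      (fun v hv => h.pC 1 le_rfl (by omega) v (h3 hv)) h4 hi3
  have hCA : (C 1).card ≤ (A 0).card := card_le_card (h.CA' 0)
  rcases le_or_gt (A 1).card (2 ^ i) with h7 | h7
  · obtain ⟨E, e1, e2, e3, e4⟩ := exists_between (h.Ae 1) (h.Ce 1 le_rfl) hAC hi1
      h7 hi2
    exact ⟨i, E, hi1, e3, hA21.trans e1, e2, e4, hi3,
      hbase' E e3 (hA21.trans e1) e2 e4, count_last h (by omega) e1 e4⟩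
  · obtain ⟨w, hw⟩ : ∃ w : V → ℕ,
        ∀ u, w u = ((A 0 \ C 1).filter (fun v => p v = u)).card := ⟨_, fun _ => rfl⟩
    have hZe : EvenFib p (A 1 \ A 2) := (h.Ae 1).sdiff (h.Ae 2) hA21
    obtain ⟨a1, ha1⟩ := (h.Ae 1).card_even
    obtain ⟨a2, ha2'⟩ := (h.Ae 2).card_even
    obtain ⟨N', hN'⟩ : ∃ N', 2 ^ i = 2 * N' := ⟨2 ^ (i - 1), by
      rw [← pow_succ']
      congr 1
      omega⟩
    have hi3' := hi3
    rw [pow_succ] at hi3'
    have hZc : (A 1 \ A 2).card = 2 * ((N' - a2) + (a1 - N')) := by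
      rw [card_sdiff_of_subset hA21]
      omega
    obtain ⟨Z', hZ'Z, hZ'e, hZ'c, hheavy⟩ := exists_heavy w (N' - a2) (a1 - N') _ hZe hZc
    have hdAZ : Disjoint (A 2) Z' := by
      rw [Finset.disjoint_left]
      intro v h1 h2
      exact (mem_sdiff.1 (hZ'Z h2)).2 h1
    obtain ⟨E, hE⟩ : ∃ E : Finset V, E = A 2 ∪ Z' := ⟨_, rfl⟩
    have hAE : A 2 ⊆ E := by rw [hE]; exact subset_union_left
    have hEA : E ⊆ A 1 := by
      rw [hE]
      exact union_subset hA21 (hZ'Z.trans sdiff_subset)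
    have hEe : EvenFib p E := by rw [hE]; exact (h.Ae 2).union hZ'e hdAZ
    have hEc : E.card = 2 ^ i := by
      rw [hE, card_union_of_disjoint hdAZ, hZ'c]
      omega
    have hlab := hbase' E hEe hAE (hEA.trans hAC) hEc
    refine ⟨i, E, hi1, hEe, hAE, hEA.trans hAC, hEc, hi3, hlab, Or.inr ?_⟩
    obtain ⟨W, hW⟩ : ∃ W : Finset V, W = (A 0 \ C (0 + 1)).filter (fun v => p v ∈ E) := ⟨_, rfl⟩
    rw [← hW]
    have mW : ∀ v, v ∈ W ↔ v ∈ A 0 \ C 1 ∧ p v ∈ E := by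
      intro v
      rw [hW, mem_filter]
    have hWf : ∀ u ∈ E, W.filter (fun v => p v = u) =
        (A 0 \ C 1).filter (fun v => p v = u) := by
      intro u hu
      ext v
      rw [mem_filter, mem_filter, mW]
      exact ⟨fun h => ⟨h.1.1, h.2⟩, fun h => ⟨⟨h.1, h.2 ▸ hu⟩, h.2⟩⟩
    have hWc : W.card = ∑ u ∈ E, w u := by
      rw [card_eq_sum_card_fiberwise (f := p) (t := E) (fun v hv => ((mW v).1 hv).2)]
      exact sum_congr rfl (fun u hu => by rw [hWf u hu, hw])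
    have htot : ∑ u ∈ A 1, w u = (A 0).card - (C 1).card := by
      have h8 : ∀ v ∈ A 0 \ C 1, p v ∈ A 1 := fun v hv =>
        h.PA 1 (h.pA 0 (by omega) v (mem_sdiff.1 hv).1)
      rw [← card_sdiff_of_subset (h.CA' 0),
        card_eq_sum_card_fiberwise (f := p) (t := A 1) h8]
      exact sum_congr rfl (fun u _ => hw u)
    have hsplit : ∑ u ∈ A 1 \ A 2, w u + ∑ u ∈ A 2, w u =
        ∑ u ∈ A 1, w u := sum_sdiff hA21
    have hsplit2 : ∑ u ∈ E, w u = ∑ u ∈ A 2, w u + ∑ u ∈ Z', w u := by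
      rw [hE, sum_union hdAZ]
    rw [hWc, hsplit2]
    obtain ⟨s0, hs0⟩ : ∃ s, s = ∑ u ∈ A 2, w u := ⟨_, rfl⟩
    obtain ⟨s1, hs1⟩ : ∃ s, s = ∑ u ∈ A 1 \ A 2, w u := ⟨_, rfl⟩
    obtain ⟨s2, hs2⟩ : ∃ s, s = ∑ u ∈ Z', w u := ⟨_, rfl⟩
    rw [← hs0, ← hs1, htot] at hsplit
    rw [← hs1, ← hs2] at hheavy
    rw [← hs0, ← hs2]
    rw [← hsplit] at h8
    obtain ⟨b, hb⟩ : ∃ b, b = N' - a2 := ⟨_, rfl⟩
    obtain ⟨d, hd⟩ : ∃ d, d = N' - a2 + (a1 - N') := ⟨_, rfl⟩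
    have e1 : 2 ^ i - (A 2).card = 2 * b := by omega
    have e2 : (A 1).card - (A 2).card = 2 * d := by omega
    rw [e1, e2] at h8
    rw [← hd, ← hb] at hheavy
    have hbd : b ≤ d := by omega
    have hd0 : 0 < d := by omega
    have h9 : (2 * 2 ^ i - (C 1).card) * d ≤ (s1 + s0) * b := by
      have : 2 * ((2 * 2 ^ i - (C 1).card) * d) ≤ 2 * ((s1 + s0) * b) := by
        calc 2 * ((2 * 2 ^ i - (C 1).card) * d)
            = (2 * 2 ^ i - (C 1).card) * (2 * d) := by ring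
          _ ≤ (s1 + s0) * (2 * b) := h8
          _ = 2 * ((s1 + s0) * b) := by ring
      omega
    have h10 : (s1 + s0) * b ≤ (s0 + s2) * d := by
      calc (s1 + s0) * b = s1 * b + s0 * b := by ring
        _ ≤ s2 * d + s0 * d := Nat.add_le_add hheavy (Nat.mul_le_mul_left _ hbd)
        _ = (s0 + s2) * d := by ring
    have h11 := Nat.le_of_mul_le_mul_right (h9.trans h10) hd0
    rw [pow_succ, show (0 + 1 : ℕ) = 1 from rfl]
    omega

/-- The two-level chain with an explicit inequality. -/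
theorem chain_ineq (hev : EvenFib p (univ : Finset V)) (hn : Fintype.card V = 2 ^ n)
    (P : ℕ → Finset V) (hP0 : P 0 = univ) (hanti : ∀ j, P (j + 1) ⊆ P j)
    (hr : r ∈ P 2) (hpP : ∀ j, j < 2 → ∀ v ∈ P j, p v ∈ P (j + 1))
    (hch : ∀ j, j < 2 → ∀ u ∈ P (j + 1), ∃ v ∈ P j, p v = u) {i ν a1 a2 : ℕ}
    (hν : (univ.filter (fun v => p v ∈ P 2)).card = ν)
    (ha1 : (P 1).card + (oddPar p (P 1)).card = a1)
    (ha2 : (P 2).card + (oddPar p (P 2)).card = a2) (hi1 : 1 ≤ i)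
    (hi2 : 2 ^ i ≤ ν) (hi3 : ν < 2 ^ (i + 1)) (hi4 : a2 ≤ 2 ^ i)
    (h8 : (2 * 2 ^ i - ν) * (a1 - a2) ≤ (2 ^ n - ν) * (2 ^ i - a2))
    (hbase : ∀ (E : Finset V) (i : ℕ), 1 ≤ i → EvenFib p E → P 2 ⊆ E →
      (∀ v ∈ E, p v ∈ P 2) → E.card = 2 ^ i → PLab p r E (Fin i → ZMod 2)) :
    PLab p r univ (Fin n → ZMod 2) := by
  obtain ⟨A, C, h, hC⟩ := exists_ctx hev hn P (k := 0) hP0 hanti hr hpP hch
  rw [show (0 + 2 : ℕ) = 2 from rfl] at h
  have h0 : (A 0).card = 2 ^ n := by rw [h.A0, card_univ, hn]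
  obtain ⟨j, E, hR⟩ := base_ineq h hi1 (by rw [hC, hν]; exact hi2) (by rw [hC, hν]; exact hi3)
    (by rw [h.Ac, ha2]; exact hi4)
    (by rw [hC, hν, h.Ac 1, h.Ac 2, ha1, ha2, h0]; exact h8)
    (fun E i h1 h2 h3 h4 h5 _ => hbase E i h1 h2 h3 h4 h5)
  exact end_step h le_rfl hR

end

end Pool.Agent.H67.TP
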