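import Mathlib
import Pool.Agent.H67.TP.ChainH
import Pool.Agent.H67.TP.Two
import Pool.Agent.H67.TP.TwoB

/-!
# TP/Seven: odd trees of diameter at most seven
-/

set_option autoImplicit false

open Finset

namespace Pool.Agent.H67.TP

open Pool.Agent.H57.SS Pool.Agent.H60.FN

universe u

section

variable {V : Type u} [Fintype V] [DecidableEq V] {T : SimpleGraph V} [DecidableRel T.Adj]

theorem far_step (hT : T.IsTree) {j : ℕ} {a b : V} (ha : a ∈ lev T (j + 1))
    (hb : b ∈ lev T (j + 1)) :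
    ∃ a' ∈ lev T j, ∃ b' ∈ lev T j, T.dist a' b' = T.dist a b + 2 := by
  obtain ⟨a', ha', hne⟩ := exists_mem_ne
    (s := (lev T j).filter (fun w => T.Adj a w)) (by
      have := ((lev_succ j).1 ha).2
      omega) (par hT b a)
  rw [mem_filter] at ha'
  have h1 : a' ≠ b ∧ par hT b a' = a := by
    rcases (adj_iff_par hT b a a').1 ha'.2 with h | h
    · exact (hne h.2.symm).elim
    · exact h
  have h2 := dist_par hT b a' h1.1
  rw [h1.2] at h2
  obtain ⟨b', hb', hne'⟩ := exists_mem_ne
    (s := (lev T j).filter (fun w => T.Adj b w)) (by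
      have := ((lev_succ j).1 hb).2
      omega) (par hT a' b)
  rw [mem_filter] at hb'
  have h3 : b' ≠ a' ∧ par hT a' b' = b := by
    rcases (adj_iff_par hT a' b b').1 hb'.2 with h | h
    · exact (hne' h.2.symm).elim
    · exact h
  have h4 := dist_par hT a' b' h3.1
  rw [h3.2] at h4
  refine ⟨a', ha'.1, b', hb'.1, ?_⟩
  rw [h4, T.dist_comm, h2, T.dist_comm]

theorem exists_dist_two (hT : T.IsTree) {S : Finset V} (hS : 3 ≤ S.card) :
    ∃ a ∈ S, ∃ b ∈ S, 2 ≤ T.dist a b := by
  obtain ⟨x, y, z, hx, hy, hz, hxy, hxz, hyz⟩ := (two_lt_card_iff (s := S)).1 hS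
  have key : ∀ a b : V, a ≠ b → ¬ T.Adj a b → 2 ≤ T.dist a b := by
    intro a b hab hn
    have h1 := hT.connected.pos_dist_of_ne hab
    have h2 : T.dist a b ≠ 1 := fun h => hn (SimpleGraph.dist_eq_one_iff_adj.1 h)
    omega
  by_cases h1 : T.Adj x y
  · by_cases h2 : T.Adj x z
    · refine ⟨y, hy, z, hz, key y z hyz ?_⟩
      intro h3
      have e1 : par hT x y = x := by
        rcases (adj_iff_par hT x x y).1 h1 with h | h
        · exact (h.1 rfl).elim
        · exact h.2
      have e2 : par hT x z = x := by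
        rcases (adj_iff_par hT x x z).1 h2 with h | h
        · exact (h.1 rfl).elim
        · exact h.2
      rcases (adj_iff_par hT x y z).1 h3 with h | h
      · rw [e1] at h
        exact hxz h.2
      · rw [e2] at h
        exact hxy h.2
    · exact ⟨x, hx, z, hz, key x z hxz h2⟩
  · exact ⟨x, hx, y, hy, key x y hxy h1⟩

theorem lev_three (hT : T.IsTree) (hd : ∀ a b : V, T.dist a b ≤ 7) : (lev T 3).card ≤ 2 := by
  by_contra hcon
  obtain ⟨a, ha, b, hb, hab⟩ := exists_dist_two hT (S := lev T 3) (by omega)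
  obtain ⟨a1, ha1, b1, hb1, h1⟩ := far_step hT (j := 2) ha hb
  obtain ⟨a2, ha2, b2, hb2, h2⟩ := far_step hT (j := 1) ha1 hb1
  obtain ⟨a3, ha3, b3, hb3, h3⟩ := far_step hT (j := 0) ha2 hb2
  have := hd a3 b3
  omega

theorem lev_two_of_empty (hT : T.IsTree) {j : ℕ} (h : lev T (j + 1) = ∅) :
    (lev T j).card ≤ 2 := by
  by_contra hcon
  obtain ⟨r, hr⟩ : (lev T j).Nonempty := card_pos.1 (by omega)
  have hno : ∀ z ∈ lev T j, ∀ a ∈ lev T j, ∀ b ∈ lev T j, a ≠ b → T.Adj z a → T.Adj z b →
      False := by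
    intro z hz a ha b hb hab h1 h2
    have h3 : z ∈ lev T (j + 1) := by
      rw [lev_succ]
      refine ⟨hz, ?_⟩
      have h4 : ({a, b} : Finset V) ⊆ (lev T j).filter (fun u => T.Adj z u) := by
        intro u hu
        rw [mem_insert, mem_singleton] at hu
        rw [mem_filter]
        rcases hu with rfl | rfl
        · exact ⟨ha, h1⟩
        · exact ⟨hb, h2⟩
      have h5 := card_le_card h4
      rw [card_pair hab] at h5
      exact h5
    rw [h] at h3
    exact notMem_empty z h3
  have hpar := lev_par hT hr j le_rfl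
  have hall : ∀ y ∈ lev T j, y ≠ r → par hT r y = r := by
    intro y hy hyr
    by_contra hpy
    have h1 : y ≠ par hT r (par hT r y) := by
      intro h
      have h3 := dist_par hT r y hyr
      have h4 := dist_par hT r _ hpy
      rw [← h] at h4
      omega
    exact hno (par hT r y) (hpar y hy) y hy _ (hpar _ (hpar y hy)) h1 (adj_par hT r y hyr).symm
      (adj_par hT r _ hpy)
  have h2 : 1 < ((lev T j).erase r).card := by
    rw [card_erase_of_mem hr]
    omega
  obtain ⟨a, ha, b, hb, hab⟩ := one_lt_card.1 h2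
  rw [mem_erase] at ha hb
  have e1 := adj_par hT r a ha.1
  have e2 := adj_par hT r b hb.1
  rw [hall a ha.2 ha.1] at e1
  rw [hall b hb.2 hb.1] at e2
  exact hno r hr a ha.2 b hb.2 hab e1.symm e2.symm

end

section

variable {V : Type*} [Fintype V] [DecidableEq V] {p : V → V}

theorem nb_even (hev : EvenFib p (univ : Finset V)) (Q : Finset V) :
    EvenFib p (univ.filter (fun v => p v ∈ Q)) := by
  intro w
  by_cases hw : w ∈ Q
  · have h1 : (univ.filter (fun v => p v ∈ Q)).filter (fun v => p v = w)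
        = univ.filter (fun v => p v = w) := by
      ext v
      rw [mem_filter, mem_filter, mem_filter]
      exact ⟨fun h => ⟨mem_univ _, h.2⟩, fun h => ⟨⟨mem_univ _, h.2 ▸ hw⟩, h.2⟩⟩
    rw [h1]
    exact hev w
  · have h1 : (univ.filter (fun v => p v ∈ Q)).filter (fun v => p v = w) = ∅ := by
      apply filter_false_of_mem
      intro v hv h
      rw [mem_filter, h] at hv
      exact hw hv.2
    rw [h1]
    simp

theorem nb_step (hev : EvenFib p (univ : Finset V)) {P' P : Finset V} (h : P' ⊆ P)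
    (hch : ∀ u ∈ P, ∃ v, p v = u) :
    (univ.filter (fun v => p v ∈ P')).card + 2 * (P \ P').card ≤
      (univ.filter (fun v => p v ∈ P)).card := by
  have h1 : 2 * (P \ P').card ≤ (univ.filter (fun v => p v ∈ P \ P')).card := by
    have h2 : ∀ v ∈ univ.filter (fun v => p v ∈ P \ P'), p v ∈ P \ P' :=
      fun v hv => (mem_filter.1 hv).2
    rw [card_eq_sum_card_fiberwise (f := p) (t := P \ P') h2]
    have h3 : ∑ _u ∈ P \ P', 2 ≤ ∑ u ∈ P \ P',
        ((univ.filter (fun v => p v ∈ P \ P')).filter (fun v => p v = u)).card := by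
      apply sum_le_sum
      intro u hu
      obtain ⟨v, hv⟩ := hch u (mem_sdiff.1 hu).1
      have h5 : 0 < ((univ.filter (fun v => p v ∈ P \ P')).filter (fun v => p v = u)).card :=
        card_pos.2 ⟨v, mem_filter.2 ⟨mem_filter.2 ⟨mem_univ _, hv ▸ hu⟩, hv⟩⟩
      obtain ⟨l, hl⟩ := nb_even hev (P \ P') u
      omega
    rw [sum_const, smul_eq_mul] at h3
    omega
  have h2 : Disjoint (univ.filter (fun v => p v ∈ P')) (univ.filter (fun v => p v ∈ P \ P')) := by
    rw [Finset.disjoint_left]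
    intro v h3 h4
    rw [mem_filter] at h3 h4
    exact (mem_sdiff.1 h4.2).2 h3.2
  have h3 : univ.filter (fun v => p v ∈ P') ∪ univ.filter (fun v => p v ∈ P \ P') ⊆
      univ.filter (fun v => p v ∈ P) := by
    intro v hv
    rw [mem_union, mem_filter, mem_filter, mem_sdiff] at hv
    rw [mem_filter]
    rcases hv with hv | hv
    · exact ⟨mem_univ _, h hv.2⟩
    · exact ⟨mem_univ _, hv.2.1⟩
  have h4 := card_le_card h3
  rw [card_union_of_disjoint h2] at h4
  omega

end

theorem pow_bound (k : ℕ) (hk : 6 ≤ k) : 28 + 5 * k ≤ 2 ^ k := by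
  induction k, hk using Nat.le_induction with
  | base => norm_num
  | succ k hk ih =>
    rw [pow_succ]
    omega

/-- Odd trees of diameter at most seven on `2^n` vertices, `n ≥ 8`. -/
theorem graceful_seven {V : Type u} [Fintype V] [DecidableEq V] {T : SimpleGraph V}
    [DecidableRel T.Adj] (hT : T.IsTree) (hodd : ∀ v, Odd (T.degree v)) {n : ℕ}
    (hcV : Fintype.card V = 2 ^ n) (hn : 8 ≤ n) (hd : ∀ a b : V, T.dist a b ≤ 7) :
    ∃ g : V → (Fin n → ZMod 2), Function.Bijective g ∧
      ∀ a b c d : V, T.Adj a b → T.Adj c d → g a + g b = g c + g d → s(a, b) = s(c, d) := by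
  have hx3 := lev_three hT hd
  by_cases hx2 : (lev T 2).card ≤ 2
  · exact base_two hT hodd hcV hx2
  have hne3 : (lev T 3).Nonempty := by
    by_contra hcon
    rw [not_nonempty_iff_eq_empty] at hcon
    exact hx2 (lev_two_of_empty hT hcon)
  obtain ⟨r, hr⟩ := id hne3
  obtain ⟨k, rfl⟩ : ∃ k, n = k + 2 := ⟨n - 2, by omega⟩
  have hpb := pow_bound k (by omega)
  have hpow : 2 ^ (k + 1) = 2 * 2 ^ k := by rw [pow_succ]; ring
  have hpow2 : 2 ^ (k + 2) = 4 * 2 ^ k := by rw [pow_add]; ring
  have hrj : ∀ j, j ≤ 3 → r ∈ lev T j := fun j hj => lev_le hj hr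
  have hodp : ∀ j, j ≤ 3 → oddPar (par hT r) (lev T j) = evenDeg T (lev T j) :=
    fun j hj => oddPar_eq hT (hrj j hj) (lev_par hT hr j hj)
  have hev := evenFib_univ hT hodd r
  obtain ⟨p, hp⟩ : ∃ p, p = par hT r := ⟨_, rfl⟩
  -- the facts
  have hne2 : (lev T 2).Nonempty := ⟨r, hrj 2 (by omega)⟩
  have hc2 := lev_card hT hodd (j := 2) hne3
  have hc1 := lev_card hT hodd (j := 1) hne2
  rw [show (2 + 1 : ℕ) = 3 from rfl] at hc2
  rw [show (1 + 1 : ℕ) = 2 from rfl] at hc1
  have he2 := evenDeg_le_succ hT (j := 2) hne3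
  rw [show (2 + 1 : ℕ) = 3 from rfl] at he2
  have h32 : lev T 3 ⊆ lev T 2 := lev_anti1 2
  have h21 : lev T 2 ⊆ lev T 1 := lev_anti1 1
  have hch : ∀ j, j ≤ 2 → ∀ u ∈ lev T (j + 1), ∃ v ∈ lev T j, par hT r v = u :=
    fun j hj => exists_child_lev hT (hrj j (by omega))
  have hch1 : ∀ u ∈ lev T 1, ∃ v, par hT r v = u := by
    intro u hu
    obtain ⟨v, -, hv⟩ := hch 0 (by omega) u hu
    exact ⟨v, hv⟩
  have hN3 : (lev T 2).card + (evenDeg T (lev T 2)).card ≤
      (univ.filter (fun v => par hT r v ∈ lev T 3)).card := by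
    rw [← hodp 2 (by omega)]
    refine clos_le (nb_even hev _) ?_
    intro v hv
    rw [mem_filter]
    exact ⟨mem_univ _, lev_par' hT hr 2 (by omega) v hv⟩
  have hN2 : (lev T 1).card + (evenDeg T (lev T 1)).card ≤
      (univ.filter (fun v => par hT r v ∈ lev T 2)).card := by
    rw [← hodp 1 (by omega)]
    refine clos_le (nb_even hev _) ?_
    intro v hv
    rw [mem_filter]
    exact ⟨mem_univ _, lev_par' hT hr 1 (by omega) v hv⟩
  have hs3 := nb_step hev h32 (fun u hu => hch1 u (h21 hu))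
  have hs2 := nb_step hev h21 hch1
  have hs1 : (univ.filter (fun v => par hT r v ∈ lev T 1)).card ≤ 2 ^ (k + 2) := by
    rw [← hcV]
    exact card_le_univ _
  rw [card_sdiff_of_subset h32] at hs3
  rw [card_sdiff_of_subset h21] at hs2
  have hmid : (lev T 2).card - (lev T 3).card ≤ (lev T 1).card - (lev T 2).card := by
    rw [← card_sdiff_of_subset h32, ← card_sdiff_of_subset h21]
    have h1 : lev T 2 \ lev T 3 ⊆ (lev T 1 \ lev T 2).image (par hT r) := by
      intro u hu
      rw [mem_sdiff] at hu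
      obtain ⟨v, hv, hvu⟩ := hch 1 (by omega) u hu.1
      rw [mem_image]
      refine ⟨v, ?_, hvu⟩
      rw [mem_sdiff]
      refine ⟨hv, ?_⟩
      intro h2
      have h3 := lev_par' hT hr 2 (by omega) v h2
      rw [hvu] at h3
      exact hu.2 h3
    exact (card_le_card h1).trans card_image_le
  have hle32 := card_le_card h32
  have hle21 := card_le_card h21
  have hend : (lev T (2 + 1)).card ≤ 2 ∨
      (∀ v ∈ lev T 2, ((lev T 2).filter (fun u => T.Adj v u)).card ≤ 2) ∨
      2 * cM (k + 2) * (lev T 2).card ≤ 0 := Or.inl hx3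
  have hbase : ∀ (E : Finset V) (i : ℕ), 1 ≤ i → EvenFib (par hT r) E → lev T 2 ⊆ E →
      (∀ v ∈ E, par hT r v ∈ lev T 2) → E.card = 2 ^ i →
      PLab (par hT r) r E (Fin i → ZMod 2) := by
    intro E i h1 h2 h3 h4 h5
    exact base_plab hT hcV (hrj 2 (by omega)) hend E i h1 h2 h3 h4 h5 (by positivity)
  rcases Nat.lt_or_ge (2 ^ (k + 1)) ((lev T 1).card + (evenDeg T (lev T 1)).card) with hres | hres
  · -- the residual case
    refine exists_graceful hT r hcV (chain_flex hev hcV (lev T 1) (lev T 2) h21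
      (hrj 2 (by omega)) ?_ ?_ hch1 ?_ ?_ ?_ hbase)
    · intro v
      exact lev_par' hT hr 0 (by omega) v (by rw [lev]; exact mem_univ _)
    · exact lev_par' hT hr 1 (by omega)
    · rw [hodp 2 (by omega)]
      omega
    · rw [hodp 2 (by omega)]
      omega
    · rw [hodp 1 (by omega)]
      exact hres
  · rcases Nat.lt_or_ge (univ.filter (fun v => par hT r v ∈ lev T 2)).card
      (2 * ((lev T 2).card + (evenDeg T (lev T 2)).card)) with h2 | h2
    · -- a small case
      obtain ⟨ν, hν⟩ : ∃ ν, ν = (univ.filter (fun v => par hT r v ∈ lev T 2)).card := ⟨_, rfl⟩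
      obtain ⟨a1, ha1⟩ : ∃ a, a = (lev T 1).card + (evenDeg T (lev T 1)).card := ⟨_, rfl⟩
      obtain ⟨a2, ha2⟩ : ∃ a, a = (lev T 2).card + (evenDeg T (lev T 2)).card := ⟨_, rfl⟩
      rw [← hν] at h2 hs3 hs2 hN2
      rw [← ha1] at hN2 hc1
      rw [← ha2] at h2 hN3 hc2
      have b1 : 6 ≤ a2 ∧ a2 ≤ 7 := by omega
      have b2 : 10 ≤ ν ∧ ν ≤ 13 := by omega
      refine exists_graceful hT r hcV (chain_ineq (i := 3) (ν := ν) (a1 := a1) (a2 := a2) hev hcV
        (lev T) rfl lev_anti1 (hrj 2 (by omega)) (fun j hj => lev_par' hT hr j (by omega))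
        (fun j hj => hch j (by omega)) hν.symm ?_ ?_ (by omega) (by omega) (by omega) (by omega)
        ?_ hbase)
      · rw [hodp 1 (by omega), ha1]
      · rw [hodp 2 (by omega), ha2]
      · have c1 : 2 * 2 ^ 3 - ν ≤ 6 := by omega
        have c2 : a1 - a2 ≤ 7 := by omega
        have c3 : 42 ≤ 2 ^ (k + 2) - ν := by omega
        have c4 : 1 ≤ 2 ^ 3 - a2 := by omega
        calc (2 * 2 ^ 3 - ν) * (a1 - a2) ≤ 6 * 7 := Nat.mul_le_mul c1 c2
          _ = 42 * 1 := by norm_num
          _ ≤ (2 ^ (k + 2) - ν) * (2 ^ 3 - a2) := Nat.mul_le_mul c3 c4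
    · refine graceful_gen hT hodd hcV (m := 2) ?_ ?_ ?_ (Or.inl hx3) (by omega)
      · intro j h3 h4
        omega
      · intro _
        right
        rw [show (2 - 1 : ℕ) = 1 from rfl, cc, if_pos rfl,
          ← nbhd_eq hT (hrj 2 (by omega)) (lev_par hT hr 2 (by omega))]
        exact h2
      · intro _
        right
        right
        have h0 : (lev T 0).card = 2 ^ (k + 2) := by rw [lev, card_univ, hcV]
        rw [show (2 - 1 : ℕ) = 1 from rfl, show (2 - 2 : ℕ) = 0 from rfl, h0]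
        omega

end Pool.Agent.H67.TP
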